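import Pool.Agent.Y982.DE.Step
import Pool.Agent.Y982.LR.Stat

/-!
# DE-Law: the law of the eigenvalues of the bidiagonal model
-/

set_option autoImplicit false
set_option linter.unusedSectionVars false

open scoped BigOperators ENNReal
open Polynomial Finset MeasureTheory ProbabilityTheory

namespace Pool.Agent.Y982.DE

open Pool.Agent.Y982.LR

/-- base case -/
theorem rep_zero (s α : ℝ) {μ : Measure ((Fin 0 → ℝ) × (Fin 0 → ℝ))} [IsProbabilityMeasure μ] :
    Rep s α 0 μ := by
  refine ⟨1, one_ne_zero, ENNReal.one_ne_top, fun F hF => ?_⟩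
  have e1 : ∀ z : (Fin 0 → ℝ) × (Fin 0 → ℝ), F z = F default := fun z => by
    rw [Subsingleton.elim z default]
  have hW : Wp 0 = Set.univ := by
    ext x
    simp [Wp, Subsingleton.strictMono]
  have hP : Pos 0 = Set.univ := by
    ext x
    simp [Pos]
  have hA : ∀ x : Fin 0 → ℝ, rA s α x = 1 := by
    intro x
    simp [rA, Van]
  have hB : ∀ x : Fin 0 → ℝ, rB s x = 1 := by
    intro x
    simp [rB]
  have hv : (volume : Measure (Fin 0 → ℝ)) Set.univ = 1 := by
    rw [volume_pi]
    exact Measure.pi_empty_univ _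
  rw [lintegral_congr e1, hW, hP]
  simp only [hA, hB, e1 (_, _), Measure.restrict_univ, lintegral_const, hv, measure_univ,
    ENNReal.ofReal_one, one_mul, mul_one]

/-- the state -/
noncomputable def St (w : Ix → ℝ) : (n : ℕ) → (Fin n → ℝ) × (Fin n → ℝ)
  | 0 => (fun _ => 0, fun _ => 0)
  | n + 1 => Phi (St w n, (w (n, false), w (n, true)))

theorem St_succ (w : Ix → ℝ) (n : ℕ) :
    St w (n + 1) = Phi (St w n, (w (n, false), w (n, true))) := rfl

/-- the coordinates -/
def Xw (i : Ix) (w : Ix → ℝ) : ℝ := w i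

theorem Xw_meas (i : Ix) : Measurable (Xw i) := measurable_pi_apply i

theorem St_sig (n : ℕ) : Measurable[sig Xw {i : Ix | i.1 < n}] (fun w => St w n) := by
  induction n with
  | zero => exact @measurable_const _ _ _ (sig Xw {i : Ix | i.1 < 0}) _
  | succ n ih =>
    have h1 : Measurable[sig Xw {i : Ix | i.1 < n + 1}] (fun w => St w n) :=
      ih.mono (sig_mono Xw fun i (hi : i.1 < n) => Nat.lt_succ_of_lt hi) le_rfl
    have h2 : Measurable[sig Xw {i : Ix | i.1 < n + 1}] (Xw (n, false)) :=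
      sig_coord Xw (Nat.lt_succ_self n)
    have h3 : Measurable[sig Xw {i : Ix | i.1 < n + 1}] (Xw (n, true)) :=
      sig_coord Xw (Nat.lt_succ_self n)
    exact Phi_meas.comp (Measurable.prodMk h1 (Measurable.prodMk h2 h3))

theorem St_meas (n : ℕ) : Measurable (fun w => St w n) :=
  (St_sig n).mono (sig_le Xw Xw_meas _) le_rfl

section

variable (β α : ℝ) [hβ : Fact (0 < β)] [hα : Fact (0 < α)]

theorem Xw_indep : iIndepFun Xw (PP (gam β α)) :=
  iIndepFun_infinitePi (X := fun _ w => w) (fun _ => measurable_id)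

theorem Xw_map (i : Ix) : (PP (gam β α)).map (Xw i) = gam β α i :=
  (measurePreserving_eval_infinitePi (fun j : Ix => gam β α j) i).map_eq

theorem pair_map (n : ℕ) : (PP (gam β α)).map (fun w => (Xw (n, false) w, Xw (n, true) w)) =
    (gammaMeasure (β / 2 * (n + α)) (β / 2)).prod (gammaMeasure (β / 2 * (n + 1)) (β / 2)) := by
  have h : IndepFun (Xw (n, false)) (Xw (n, true)) (PP (gam β α)) :=
    (Xw_indep β α).indepFun (by simp)
  rw [(indepFun_iff_map_prod_eq_prod_map_map (Xw_meas _).aemeasurable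
    (Xw_meas _).aemeasurable).1 h, Xw_map, Xw_map]
  simp only [gam, shape, if_true, Bool.false_eq_true, if_false]

theorem law_St (n : ℕ) : (PP (gam β α)).map (fun w => St w (n + 1)) =
    (((PP (gam β α)).map (fun w => St w n)).prod
      ((gammaMeasure (β / 2 * (n + α)) (β / 2)).prod
        (gammaMeasure (β / 2 * (n + 1)) (β / 2)))).map Phi := by
  have h2 : Measurable[sig Xw {i : Ix | i.1 = n}]
      (fun w => (Xw (n, false) w, Xw (n, true) w)) := by
    have h2 : Measurable[sig Xw {i : Ix | i.1 = n}] (Xw (n, false)) := sig_coord Xw rfl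
    have h3 : Measurable[sig Xw {i : Ix | i.1 = n}] (Xw (n, true)) := sig_coord Xw rfl
    exact Measurable.prodMk h2 h3
  have hd : Disjoint {i : Ix | i.1 < n} {i : Ix | i.1 = n} := by
    rw [Set.disjoint_left]
    intro i h1 h2
    simp only [Set.mem_setOf_eq] at h1 h2
    omega
  have hind := indep_sig Xw_meas (Xw_indep β α) hd (St_sig n) h2
  have hm2 : Measurable (fun w => (Xw (n, false) w, Xw (n, true) w)) :=
    (Xw_meas _).prodMk (Xw_meas _)
  have h := (indepFun_iff_map_prod_eq_prod_map_map (St_meas n).aemeasurable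
    hm2.aemeasurable).1 hind
  rw [pair_map] at h
  rw [← h, Measure.map_map Phi_meas ((St_meas n).prodMk hm2)]
  rfl

theorem rep_St (n : ℕ) : Rep (β / 2) α n ((PP (gam β α)).map (fun w => St w n)) := by
  have hs : 0 < β / 2 := by have := hβ.1; positivity
  induction n with
  | zero =>
    haveI : IsProbabilityMeasure ((PP (gam β α)).map (fun w => St w 0)) :=
      Measure.isProbabilityMeasure_map (St_meas 0).aemeasurable
    exact rep_zero _ _
  | succ n ih =>
    haveI : IsProbabilityMeasure ((PP (gam β α)).map (fun w => St w n)) :=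
      Measure.isProbabilityMeasure_map (St_meas n).aemeasurable
    rw [law_St]
    exact rep_step hs hα.1 ih

end

/-! ### the matrix -/

theorem St_poly {w : Ix → ℝ} (hw : ∀ i, 0 ≤ w i) (x : ℝ) (n : ℕ) :
    Dp (bw w) (cw w) x n = (-1) ^ n * (X ^ n + lin n (St w n).1).eval (-x) ∧
    Vp (bw w) (cw w) x n = (-1) ^ n * x * ((X ^ n + lin n (St w n).1).eval (-x) -
      (lin n (St w n).2).eval (-x)) := by
  induction n with
  | zero =>
    have h0 : ∀ v : Fin 0 → ℝ, lin 0 v = 0 := by
      intro v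
      rw [lin_apply]
      simp
    simp [h0]
  | succ n ih =>
    obtain ⟨h1, h2⟩ := ih
    have hb : bw w n = w (n, false) := max_eq_left (hw _)
    have hc : cw w n = w (n, true) := max_eq_left (hw _)
    set P : ℝ[X] := X ^ n + lin n (St w n).1 with hP
    have e1 : X ^ (n + 1) + lin (n + 1) (St w (n + 1)).1 =
        X * (P - lin n (St w n).2) - C (w (n, false)) * P := by
      rw [St_succ]
      unfold Phi
      simp only
      rw [map_sub, map_smul, lin_sh, lin_up, map_sub, ← hP, Polynomial.smul_eq_C_mul]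
      rw [hP]
      ring
    have e2 : lin (n + 1) (St w (n + 1)).2 = C (w (n, true)) * (P - lin n (St w n).2) := by
      rw [St_succ]
      unfold Phi
      simp only
      rw [map_smul, lin_up, map_sub, Polynomial.smul_eq_C_mul, hP]
      ring
    have e3 : Dp (bw w) (cw w) x (n + 1) = (-1) ^ (n + 1) *
        (X ^ (n + 1) + lin (n + 1) (St w (n + 1)).1).eval (-x) := by
      rw [Dp_succ, h1, h2, hb, e1]
      simp only [Polynomial.eval_sub, Polynomial.eval_mul, Polynomial.eval_X, Polynomial.eval_C]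
      ring
    refine ⟨e3, ?_⟩
    rw [Vp_succ, e3, h2, hc, e1, e2]
    simp only [Polynomial.eval_sub, Polynomial.eval_mul, Polynomial.eval_X, Polynomial.eval_C]
    ring

theorem St_Co {w : Ix → ℝ} (hw : ∀ i, 0 ≤ w i) (n : ℕ) :
    (St w n).1 = Co (ev n (bw w) (cw w)) := by
  have h : X ^ n + lin n (St w n).1 = pol (ev n (bw w) (cw w)) := by
    apply Polynomial.eq_of_infinite_eval_eq
    refine Set.Infinite.mono ?_ (Set.Iio_infinite (0 : ℝ))
    intro t ht
    have ht' : 0 < -t := by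
      have : t < 0 := ht
      linarith
    have h1 := (St_poly hw (-t) n).1
    rw [prod_ev n (bw_nn w) (cw_nn w) ht', neg_neg] at h1
    simp only [Set.mem_setOf_eq]
    rw [pol_eval]
    have h2 : ∏ i, (t - ev n (bw w) (cw w) i) = (-1) ^ n * ∏ i, (ev n (bw w) (cw w) i + -t) := by
      have : ((-1 : ℝ)) ^ n = ∏ _i : Fin n, (-1 : ℝ) := by simp
      rw [this, ← Finset.prod_mul_distrib]
      refine prod_congr rfl fun i _ => ?_
      ring
    rw [h2, h1, ← mul_assoc, ← mul_pow]
    norm_num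
  rw [pol_eq] at h
  exact lin_inj (add_left_cancel h)

theorem sum_roots {n : ℕ} {x y : Fin n → ℝ} (h : Co x = Co y) (f : ℝ → ℝ) :
    ∑ i, f (x i) = ∑ i, f (y i) := by
  have h0 : pol x = pol y := by rw [pol_eq, pol_eq, h]
  have h1 : ∀ (z : Fin n → ℝ), (pol z).roots = Multiset.map z univ.val := by
    intro z
    have e : pol z = (Multiset.map (fun a => X - C a) (Multiset.map z univ.val)).prod := by
      unfold pol
      rw [Multiset.map_map]
      rfl
    rw [e, Polynomial.roots_multiset_prod_X_sub_C]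
  have h2 : Multiset.map x univ.val = Multiset.map y univ.val := by rw [← h1, ← h1, h0]
  have h3 := congrArg (fun s => (Multiset.map f s).sum) h2
  simp only [Multiset.map_map] at h3
  exact h3

/-- the image of the chamber -/
theorem meas_img {n : ℕ} : MeasurableSet (Co '' Wp n) :=
  meas_Wp.image_of_continuousOn_injOn Co_cont.continuousOn
    (fun _ hx _ hy h => Co_inj hx.1 hy.1 h)

/-- linear statistics as functions of the coefficients -/
theorem exists_H {n : ℕ} {h : (Fin n → ℝ) → ℝ} (hh : Measurable h) :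
    ∃ H : (Fin n → ℝ) → ℝ, Measurable H ∧ ∀ x ∈ Wp n, H (Co x) = h x := by
  have he : MeasurableEmbedding ((Wp n).restrict (Co (n := n))) :=
    Co_cont.continuousOn.measurableEmbedding meas_Wp (fun _ hx _ hy h => Co_inj hx.1 hy.1 h)
  obtain ⟨H, hH, hHe⟩ := he.exists_measurable_extend
    (g := fun x : Wp n => h x) (hh.comp measurable_subtype_coe) (fun _ => ⟨0⟩)
  refine ⟨H, hH, fun x hx => ?_⟩
  exact congrFun hHe ⟨x, hx⟩

section

variable (β α : ℝ) [hβ : Fact (0 < β)] [hα : Fact (0 < α)]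

theorem w_pos : ∀ᵐ w ∂(PP (gam β α)), ∀ i, 0 ≤ w i := by
  rw [ae_all_iff]
  intro i
  have h := (measurePreserving_eval_infinitePi (fun j : Ix => gam β α j) i).quasiMeasurePreserving.ae
    (gam_pos (shape β α i) (β / 2))
  filter_upwards [h] with w hw
  exact le_of_lt hw

theorem ae_img (n : ℕ) : ∀ᵐ w ∂(PP (gam β α)), (St w n).1 ∈ Co '' Wp n := by
  obtain ⟨Z, -, -, hZ⟩ := rep_St β α n
  have hm : Measurable fun z : (Fin n → ℝ) × (Fin n → ℝ) =>
      (Co '' Wp n)ᶜ.indicator (fun _ => (1 : ℝ≥0∞)) z.1 :=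
    (measurable_const.indicator meas_img.compl).comp measurable_fst
  have h := hZ _ hm
  have h0 : ∫⁻ x in Wp n, ∫⁻ g in Pos n, ENNReal.ofReal (rA (β / 2) α x) *
      ENNReal.ofReal (rB (β / 2) g) * (Co '' Wp n)ᶜ.indicator (fun _ => (1 : ℝ≥0∞)) (Co x) = 0 := by
    rw [setLIntegral_congr_fun (g := fun _ => 0) meas_Wp]
    · simp
    · intro x hx
      have : (Co '' Wp n)ᶜ.indicator (fun _ => (1 : ℝ≥0∞)) (Co x) = 0 :=
        Set.indicator_of_notMem (fun (h : Co x ∈ (Co '' Wp n)ᶜ) => h ⟨x, hx, rfl⟩) _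
      simp only [this, mul_zero, lintegral_zero]
  rw [h0, mul_zero, lintegral_map hm (St_meas n)] at h
  have h1 := (lintegral_eq_zero_iff (hm.comp (St_meas n))).1 h
  filter_upwards [h1] with w hw
  by_contra hcon
  simp only [Pi.zero_apply, Function.comp] at hw
  rw [Set.indicator_of_mem (show (St w n).1 ∈ (Co '' Wp n)ᶜ from hcon)] at hw
  exact one_ne_zero hw

/-- the law of the linear statistics -/
theorem stat_law (n : ℕ) : ∃ Z : ℝ≥0∞, ∀ (f : ℝ → ℝ), Measurable f → ∀ F : ℝ → ℝ≥0∞,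
    Measurable F → ∫⁻ w, F (∑ i, f (ev n (bw w) (cw w) i)) ∂(PP (gam β α)) =
      Z * ∫⁻ x in Wp n, ENNReal.ofReal (rA (β / 2) α x) * F (∑ i, f (x i)) := by
  obtain ⟨Z, -, -, hZ⟩ := rep_St β α n
  refine ⟨Z * ∫⁻ g in Pos n, ENNReal.ofReal (rB (β / 2) g), fun f hf F hF => ?_⟩
  have hsum : Measurable fun x : Fin n → ℝ => ∑ i, f (x i) :=
    Finset.measurable_sum _ fun i _ => hf.comp (measurable_pi_apply i)
  obtain ⟨H, hH, hHe⟩ := exists_H hsum
  have h1 : ∫⁻ w, F (∑ i, f (ev n (bw w) (cw w) i)) ∂(PP (gam β α)) =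
      ∫⁻ w, F (H (St w n).1) ∂(PP (gam β α)) := by
    refine lintegral_congr_ae ?_
    filter_upwards [ae_img β α n, w_pos β α] with w h1 h2
    obtain ⟨x, hx, hxe⟩ := h1
    have h3 := hHe x hx
    rw [hxe] at h3
    rw [h3]
    congr 1
    apply sum_roots
    rw [hxe, St_Co h2 n]
  have hm : Measurable fun z : (Fin n → ℝ) × (Fin n → ℝ) => F (H z.1) :=
    (hF.comp hH).comp measurable_fst
  have h2 := hZ _ hm
  rw [lintegral_map hm (St_meas n)] at h2
  rw [h1, h2, mul_assoc]
  congr 1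
  have hrB : Measurable fun g : Fin n → ℝ => ENNReal.ofReal (rB (β / 2) g) :=
    (rB_meas _).ennreal_ofReal
  have h3 : ∀ x ∈ Wp n, ∫⁻ g in Pos n, ENNReal.ofReal (rA (β / 2) α x) *
      ENNReal.ofReal (rB (β / 2) g) * F (H (Co x)) =
      (∫⁻ g in Pos n, ENNReal.ofReal (rB (β / 2) g)) * (ENNReal.ofReal (rA (β / 2) α x) *
        F (∑ i, f (x i))) := by
    intro x hx
    rw [hHe x hx, ← lintegral_mul_const _ hrB]
    refine lintegral_congr fun g => ?_
    ring
  have hrA : Measurable fun x : Fin n → ℝ => ENNReal.ofReal (rA (β / 2) α x) :=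
    (rA_meas _ _).ennreal_ofReal
  rw [setLIntegral_congr_fun meas_Wp h3]
  have hm5 : Measurable fun x : Fin n → ℝ => ENNReal.ofReal (rA (β / 2) α x) *
      F (∑ i, f (x i)) := hrA.mul (hF.comp hsum)
  exact lintegral_const_mul _ hm5

/-- total mass of the density -/
noncomputable def mass (β α : ℝ) (n : ℕ) : ℝ≥0∞ := ∫⁻ x in Wp n, ENNReal.ofReal (rA (β / 2) α x)

theorem stat_law' (n : ℕ) : mass β α n ≠ 0 ∧ mass β α n ≠ ∞ ∧ ∀ (f : ℝ → ℝ), Measurable f →
    ∀ F : ℝ → ℝ≥0∞, Measurable F →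
    ∫⁻ w, F (∑ i, f (ev n (bw w) (cw w) i)) ∂(PP (gam β α)) =
      (mass β α n)⁻¹ * ∫⁻ x in Wp n, ENNReal.ofReal (rA (β / 2) α x) * F (∑ i, f (x i)) := by
  obtain ⟨Z, hZ⟩ := stat_law β α n
  have h := hZ (fun _ => 0) measurable_const (fun _ => 1) measurable_const
  simp only [lintegral_const, measure_univ, mul_one] at h
  have hm : Z * mass β α n = 1 := h.symm
  have hZi : Z = (mass β α n)⁻¹ := ENNReal.eq_inv_of_mul_eq_one_left hm
  refine ⟨?_, ?_, ?_⟩
  · intro h0
    rw [h0, mul_zero] at hm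
    exact zero_ne_one hm
  · intro h0
    rw [hZi, h0, ENNReal.inv_top, zero_mul] at hm
    exact zero_ne_one hm
  · rw [← hZi]
    exact hZ

end

end Pool.Agent.Y982.DE
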