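import Pool.Agent.Y982.DE.Inter

/-!
# DE-Cov: changes of variables
-/

set_option autoImplicit false

open scoped BigOperators ENNReal
open Polynomial Finset MeasureTheory

namespace Pool.Agent.Y982.DE

/-- evaluation at the nodes `0, 1, …, n-1` -/
noncomputable def nodeM (n : ℕ) : Matrix (Fin n) (Fin n) ℝ := Matrix.vandermonde fun k : Fin n => ((k : ℕ) : ℝ)

theorem nodeM_det (n : ℕ) : (nodeM n).det ≠ 0 := by
  unfold nodeM
  rw [Matrix.det_vandermonde_ne_zero_iff]
  intro i j h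
  have : ((i : ℕ) : ℝ) = ((j : ℕ) : ℝ) := h
  exact Fin.ext (by exact_mod_cast this)

theorem nodeM_apply {n : ℕ} (v : Fin n → ℝ) (k : Fin n) :
    (nodeM n).mulVec v k = (lin n v).eval ((k : ℕ) : ℝ) := by
  rw [lin_eval, Matrix.mulVec, dotProduct]
  refine sum_congr rfl fun i _ => ?_
  unfold nodeM
  rw [Matrix.vandermonde_apply, mul_comm]

theorem nodeM_inv {n : ℕ} (v : Fin n → ℝ) : (nodeM n)⁻¹.mulVec ((nodeM n).mulVec v) = v := by
  rw [Matrix.mulVec_mulVec, Matrix.nonsing_inv_mul _ (isUnit_iff_ne_zero.2 (nodeM_det n)),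
    Matrix.one_mulVec]

/-- values at the nodes -/
noncomputable def Ev {n : ℕ} (x : Fin n → ℝ) (k : Fin n) : ℝ := ∏ i, (((k : ℕ) : ℝ) - x i)

theorem Co_eq {n : ℕ} (x : Fin n → ℝ) :
    Co x = (nodeM n)⁻¹.mulVec (fun k => Ev x k - ((k : ℕ) : ℝ) ^ n) := by
  have h : (nodeM n).mulVec (Co x) = fun k => Ev x k - ((k : ℕ) : ℝ) ^ n := by
    funext k
    rw [nodeM_apply]
    unfold Ev
    rw [← pol_eval, pol_eq x]
    simp
  rw [← h, nodeM_inv]

theorem hasFDeriv_Ev {n : ℕ} (x : Fin n → ℝ) (k : Fin n) :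
    HasFDerivAt (fun y : Fin n → ℝ => Ev y k)
      (∑ i, (∏ j ∈ univ.erase i, (((k : ℕ) : ℝ) - x j)) • -(ContinuousLinearMap.proj (R := ℝ) (φ := fun _ : Fin n => ℝ) i)) x := by
  unfold Ev
  refine HasFDerivAt.finsetProd (u := univ) (x := x)
    (g := fun (i : Fin n) (y : Fin n → ℝ) => (((k : ℕ) : ℝ) - y i)) fun i _ => ?_
  exact (ContinuousLinearMap.hasFDerivAt (ContinuousLinearMap.proj (R := ℝ) (φ := fun _ : Fin n => ℝ) i)).const_sub _

theorem hasFDeriv_Co {n : ℕ} (x : Fin n → ℝ) :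
    HasFDerivAt (Co (n := n)) (-(LinearMap.toContinuousLinearMap (Mx x))) x := by
  have h1 : HasFDerivAt (fun y : Fin n → ℝ => fun k : Fin n => Ev y k - ((k : ℕ) : ℝ) ^ n)
      (ContinuousLinearMap.pi fun k : Fin n => ∑ i, (∏ j ∈ univ.erase i, (((k : ℕ) : ℝ) - x j)) •
        -(ContinuousLinearMap.proj (R := ℝ) (φ := fun _ : Fin n => ℝ) i)) x :=
    hasFDerivAt_pi.2 fun k => (hasFDeriv_Ev x k).sub_const _
  set A : (Fin n → ℝ) →L[ℝ] (Fin n → ℝ) :=
    LinearMap.toContinuousLinearMap (Matrix.toLin' (nodeM n)⁻¹) with hA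
  have h2 := A.hasFDerivAt.comp x h1
  have e1 : (fun y : Fin n → ℝ => A ((fun k : Fin n => Ev y k - ((k : ℕ) : ℝ) ^ n))) = Co := by
    funext y
    rw [Co_eq y, hA]
    simp [Matrix.toLin'_apply]
  have h3 : HasFDerivAt (Co (n := n)) (A.comp (ContinuousLinearMap.pi fun k : Fin n =>
      ∑ i, (∏ j ∈ univ.erase i, (((k : ℕ) : ℝ) - x j)) •
        -(ContinuousLinearMap.proj (R := ℝ) (φ := fun _ : Fin n => ℝ) i))) x := by
    rw [← e1]
    exact h2
  have key : -(LinearMap.toContinuousLinearMap (Mx x)) = A.comp (ContinuousLinearMap.pi fun k : Fin n =>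
      ∑ i, (∏ j ∈ univ.erase i, (((k : ℕ) : ℝ) - x j)) •
        -(ContinuousLinearMap.proj (R := ℝ) (φ := fun _ : Fin n => ℝ) i)) := ?_
  · rw [key]; exact h3
  ext1 h
  have e2 : (ContinuousLinearMap.pi fun k : Fin n =>
      ∑ i, (∏ j ∈ univ.erase i, (((k : ℕ) : ℝ) - x j)) •
        -(ContinuousLinearMap.proj (R := ℝ) (φ := fun _ : Fin n => ℝ) i)) h =
      -((nodeM n).mulVec (Mx x h)) := by
    funext k
    rw [Pi.neg_apply, nodeM_apply, eval_Mx, ContinuousLinearMap.coe_pi']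
    simp only [ContinuousLinearMap.sum_apply]
    rw [← Finset.sum_neg_distrib]
    refine sum_congr rfl fun i _ => ?_
    simp
    ring
  rw [ContinuousLinearMap.comp_apply, e2, map_neg, hA]
  rw [ContinuousLinearMap.neg_apply]
  congr 1
  rw [LinearMap.coe_toContinuousLinearMap', LinearMap.coe_toContinuousLinearMap',
    Matrix.toLin'_apply, nodeM_inv]

theorem Co_cont {n : ℕ} : Continuous (Co (n := n)) :=
  continuous_iff_continuousAt.2 fun x => (hasFDeriv_Co x).continuousAt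

theorem Co_meas {n : ℕ} : Measurable (Co (n := n)) := Co_cont.measurable

theorem coeff_prod_cont {n : ℕ} (s : Finset (Fin n)) :
    ∀ k : ℕ, Continuous fun x : Fin n → ℝ => (∏ j ∈ s, (X - C (x j))).coeff k := by
  classical
  induction s using Finset.induction_on with
  | empty =>
    intro k
    simp only [Finset.prod_empty]
    exact continuous_const
  | insert a s ha ih =>
    intro k
    simp only [Finset.prod_insert ha, sub_mul, Polynomial.coeff_sub, Polynomial.coeff_C_mul]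
    cases k with
    | zero =>
      simp only [Polynomial.coeff_X_mul_zero]
      exact continuous_const.sub ((continuous_apply a).mul (ih 0))
    | succ k =>
      simp only [Polynomial.coeff_X_mul]
      exact (ih k).sub ((continuous_apply a).mul (ih (k + 1)))

theorem Mx_cont {n : ℕ} : Continuous fun z : (Fin n → ℝ) × (Fin n → ℝ) => Mx z.1 z.2 := by
  refine continuous_pi fun k => ?_
  have : (fun z : (Fin n → ℝ) × (Fin n → ℝ) => Mx z.1 z.2 k) =
      fun z => ∑ i, Mm z.1 k i * z.2 i := by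
    funext z
    unfold Mx
    rw [Matrix.toLin'_apply]
    rfl
  rw [this]
  refine continuous_finset_sum _ fun i _ => ?_
  refine Continuous.mul ?_ ((continuous_apply i).comp continuous_snd)
  exact (coeff_prod_cont (univ.erase i) k).comp continuous_fst

theorem Van_cont {n : ℕ} : Continuous (Van (n := n)) := by
  unfold Van
  fun_prop

/-! ### measurability of the sets -/

theorem meas_I2 {m : ℕ} : MeasurableSet {z : (Fin (m + 1) → ℝ) × (Fin m → ℝ) | I2 z.1 z.2} := by
  have : {z : (Fin (m + 1) → ℝ) × (Fin m → ℝ) | I2 z.1 z.2} =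
      ⋂ i : Fin m, ({z | z.1 i.castSucc < z.2 i} ∩ {z | z.2 i < z.1 i.succ}) := by
    ext z
    simp [I2]
  rw [this]
  refine MeasurableSet.iInter fun i => (measurableSet_lt ?_ ?_).inter (measurableSet_lt ?_ ?_)
  all_goals fun_prop

theorem meas_I1 {m : ℕ} : MeasurableSet {z : (Fin m → ℝ) × (Fin m → ℝ) | I1 z.1 z.2} := by
  have : {z : (Fin m → ℝ) × (Fin m → ℝ) | I1 z.1 z.2} =
      (⋂ i : Fin m, {z | z.1 i < z.2 i}) ∩ ⋂ i : Fin m, ⋂ j : Fin m, ⋂ _ : i < j, {z | z.2 i < z.1 j} := by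
    ext z
    simp [I1]
  rw [this]
  refine (MeasurableSet.iInter fun i => measurableSet_lt ?_ ?_).inter
    (MeasurableSet.iInter fun i => MeasurableSet.iInter fun j => MeasurableSet.iInter fun _ =>
      measurableSet_lt ?_ ?_)
  all_goals fun_prop

/-- positive vectors -/
def Pos (n : ℕ) : Set (Fin n → ℝ) := {g | ∀ i, 0 < g i}

/-- the open Weyl chamber of positive vectors -/
def Wp (n : ℕ) : Set (Fin n → ℝ) := {x | StrictMono x ∧ ∀ i, 0 < x i}

theorem meas_Pos {n : ℕ} : MeasurableSet (Pos n) := by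
  have : Pos n = ⋂ i : Fin n, {g | 0 < g i} := by ext g; simp [Pos]
  rw [this]
  exact MeasurableSet.iInter fun i => measurableSet_lt measurable_const (measurable_pi_apply i)

theorem meas_Wp {n : ℕ} : MeasurableSet (Wp n) := by
  have : Wp n = (⋂ i : Fin n, ⋂ j : Fin n, ⋂ _ : i < j, {x | x i < x j}) ∩ Pos n := by
    ext x
    simp [Wp, Pos, StrictMono]
  rw [this]
  exact (MeasurableSet.iInter fun i => MeasurableSet.iInter fun j => MeasurableSet.iInter fun _ =>
    measurableSet_lt (measurable_pi_apply i) (measurable_pi_apply j)).inter meas_Pos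

/-! ### change of variables -/

theorem covCo {n : ℕ} {S : Set (Fin n → ℝ)} (hS : MeasurableSet S) (hm : ∀ x ∈ S, StrictMono x)
    (G : (Fin n → ℝ) → ℝ≥0∞) :
    ∫⁻ p in Co '' S, G p = ∫⁻ x in S, ENNReal.ofReal (Van x) * G (Co x) := by
  rw [lintegral_image_eq_lintegral_abs_det_fderiv_mul volume hS
    (fun x _ => (hasFDeriv_Co x).hasFDerivWithinAt) (fun x hx y hy h => Co_inj (hm x hx) (hm y hy) h)]
  refine setLIntegral_congr_fun hS fun x hx => ?_
  congr 2
  have : (-(LinearMap.toContinuousLinearMap (Mx x))).det = (-1) ^ n * LinearMap.det (Mx x) := by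
    unfold ContinuousLinearMap.det
    have e : ((-(LinearMap.toContinuousLinearMap (Mx x)) : (Fin n → ℝ) →L[ℝ] (Fin n → ℝ)) :
        (Fin n → ℝ) →ₗ[ℝ] (Fin n → ℝ)) = (-1 : ℝ) • Mx x := by
      ext; simp
    rw [e, LinearMap.det_smul]
    simp
  rw [this, abs_mul, abs_pow, abs_neg, abs_one, one_pow, one_mul, det_Mx (hm x hx)]

theorem Lx_ne {m : ℕ} {x : Fin m → ℝ} (hx : StrictMono x) (i : Fin m) : Lx x i ≠ 0 := fun h => by
  have := sign_Lx hx i
  rw [h, mul_zero] at this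
  exact lt_irrefl _ this

theorem Mx_inj {m : ℕ} {x : Fin m → ℝ} (hx : StrictMono x) {g h : Fin m → ℝ}
    (hgh : Mx x g = Mx x h) : g = h := by
  funext i
  have h1 := eval_Mx_node x g i
  rw [hgh, eval_Mx_node] at h1
  exact (mul_right_cancel₀ (Lx_ne hx i) h1).symm

/-- first change of variables -/
theorem covA {m : ℕ} {x : Fin m → ℝ} (hx : StrictMono x) (F : (Fin m → ℝ) → ℝ≥0∞) :
    ∫⁻ g in Pos m, ENNReal.ofReal (Van x) * F (Co x - Mx x g) =
      ∫⁻ κ in {κ | I1 x κ}, ENNReal.ofReal (Van κ) * F (Co κ) := by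
  have hI : MeasurableSet {κ | I1 x κ} := measurable_prodMk_left (x := x) meas_I1
  have hset : (fun g => Co x - Mx x g) '' Pos m = Co '' {κ | I1 x κ} := by
    ext k
    constructor
    · rintro ⟨g, hg, rfl⟩
      obtain ⟨κ, h1, h2⟩ := (setA hx (Co x - Mx x g)).1 ⟨g, hg, rfl⟩
      exact ⟨κ, h1, h2.symm⟩
    · rintro ⟨κ, h1, rfl⟩
      obtain ⟨g, h2, h3⟩ := (setA hx (Co κ)).2 ⟨κ, h1, rfl⟩
      exact ⟨g, h2, h3.symm⟩
  rw [← covCo hI (fun κ hκ => hκ.monok) F, ← hset]
  have hder : ∀ g ∈ Pos m, HasFDerivWithinAt (fun g => Co x - Mx x g)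
      (-(LinearMap.toContinuousLinearMap (Mx x))) (Pos m) g := by
    intro g _
    have h1 : HasFDerivAt (fun g => Mx x g) (LinearMap.toContinuousLinearMap (Mx x)) g := by
      have := (LinearMap.toContinuousLinearMap (Mx x)).hasFDerivAt (x := g)
      simpa using this
    exact (h1.const_sub (Co x)).hasFDerivWithinAt
  have hdet : |(-(LinearMap.toContinuousLinearMap (Mx x))).det| = Van x := by
    have : (-(LinearMap.toContinuousLinearMap (Mx x))).det = (-1) ^ m * LinearMap.det (Mx x) := by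
      unfold ContinuousLinearMap.det
      have e : ((-(LinearMap.toContinuousLinearMap (Mx x)) : (Fin m → ℝ) →L[ℝ] (Fin m → ℝ)) :
          (Fin m → ℝ) →ₗ[ℝ] (Fin m → ℝ)) = (-1 : ℝ) • Mx x := by
        ext; simp
      rw [e, LinearMap.det_smul]
      simp
    rw [this, abs_mul, abs_pow, abs_neg, abs_one, one_pow, one_mul, det_Mx hx]
  have hinj : Set.InjOn (fun g => Co x - Mx x g) (Pos m) := by
    intro g _ h _ hgh
    exact Mx_inj hx (sub_right_injective hgh)
  rw [lintegral_image_eq_lintegral_abs_det_fderiv_mul volume meas_Pos hder hinj]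
  simp only [hdet]

/-- linear change of variables -/
theorem covM {m : ℕ} {x : Fin m → ℝ} (hx : StrictMono x) (F : (Fin m → ℝ) → ℝ≥0∞) :
    ∫⁻ q in (fun g => Mx x g) '' Pos m, F q = ∫⁻ g in Pos m, ENNReal.ofReal (Van x) * F (Mx x g) := by
  have hder : ∀ g ∈ Pos m, HasFDerivWithinAt (fun g => Mx x g)
      (LinearMap.toContinuousLinearMap (Mx x)) (Pos m) g := by
    intro g _
    have := (LinearMap.toContinuousLinearMap (Mx x)).hasFDerivWithinAt (x := g) (s := Pos m)
    simpa using this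
  have hdet : |(LinearMap.toContinuousLinearMap (Mx x)).det| = Van x := by
    unfold ContinuousLinearMap.det
    rw [← det_Mx hx]
    simp
  have hinj : Set.InjOn (fun g => Mx x g) (Pos m) := by
    intro g _ h _ hgh
    exact Mx_inj hx hgh
  rw [lintegral_image_eq_lintegral_abs_det_fderiv_mul volume meas_Pos hder hinj]
  simp only [hdet]

/-- the scaled map `x ↦ b • Co x` -/
theorem covS {m : ℕ} {b : ℝ} (hb : 0 < b) {S : Set (Fin m → ℝ)} (hS : MeasurableSet S)
    (hm : ∀ x ∈ S, StrictMono x) (G : (Fin m → ℝ) → ℝ≥0∞) :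
    ∫⁻ q in (fun x => b • Co x) '' S, G q =
      ∫⁻ x in S, ENNReal.ofReal (b ^ m * Van x) * G (b • Co x) := by
  have hder : ∀ x ∈ S, HasFDerivWithinAt (fun x => b • Co x)
      (b • -(LinearMap.toContinuousLinearMap (Mx x))) S x := fun x _ =>
    ((hasFDeriv_Co x).const_smul b).hasFDerivWithinAt
  have hinj : Set.InjOn (fun x => b • Co x) S := by
    intro x hx y hy h
    exact Co_inj (hm x hx) (hm y hy) (smul_right_injective _ hb.ne' h)
  rw [lintegral_image_eq_lintegral_abs_det_fderiv_mul volume hS hder hinj]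
  refine setLIntegral_congr_fun hS fun x hx => ?_
  congr 2
  have : (b • -(LinearMap.toContinuousLinearMap (Mx x))).det = (-b) ^ m * LinearMap.det (Mx x) := by
    unfold ContinuousLinearMap.det
    have e : ((b • -(LinearMap.toContinuousLinearMap (Mx x)) : (Fin m → ℝ) →L[ℝ] (Fin m → ℝ)) :
        (Fin m → ℝ) →ₗ[ℝ] (Fin m → ℝ)) = (-b : ℝ) • Mx x := by
      ext; simp
    rw [e, LinearMap.det_smul]
    simp
  rw [this, abs_mul, abs_pow, abs_neg, abs_of_pos hb, det_Mx (hm x hx)]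

/-- integration over the last coordinate -/
theorem lint_snoc {m : ℕ} {h : (Fin (m + 1) → ℝ) → ℝ≥0∞} (hh : Measurable h) :
    ∫⁻ v, h v = ∫⁻ b : ℝ, ∫⁻ q : Fin m → ℝ, h (Fin.snoc q b) := by
  have h1 := (volume_preserving_piFinSuccAbove (fun _ : Fin (m + 1) => ℝ) (Fin.last m)).symm
  rw [← h1.lintegral_comp_emb (MeasurableEquiv.measurableEmbedding _)]
  have e : ∀ z : ℝ × (Fin m → ℝ),
      (MeasurableEquiv.piFinSuccAbove (fun _ : Fin (m + 1) => ℝ) (Fin.last m)).symm z =
        Fin.snoc z.2 z.1 := by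
    intro z
    rw [MeasurableEquiv.piFinSuccAbove_symm_apply]
    exact Fin.insertNth_last' z.1 z.2
  simp only [e]
  have hm2 : Measurable fun z : ℝ × (Fin m → ℝ) => h (Fin.snoc z.2 z.1 : Fin (m + 1) → ℝ) := by
    have : (fun z : ℝ × (Fin m → ℝ) => h (Fin.snoc z.2 z.1 : Fin (m + 1) → ℝ)) =
        h ∘ (MeasurableEquiv.piFinSuccAbove (fun _ : Fin (m + 1) => ℝ) (Fin.last m)).symm := by
      funext z
      rw [Function.comp_apply, e]
    rw [this]
    exact hh.comp (MeasurableEquiv.measurable _)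
  exact lintegral_prod _ hm2.aemeasurable

theorem up_meas {m : ℕ} : Measurable (up (n := m)) := by
  unfold up
  refine measurable_pi_lambda _ fun i => ?_
  induction i using Fin.lastCases with
  | last => simp only [Fin.snoc_last]; exact measurable_const
  | cast i => simp only [Fin.snoc_castSucc]; exact measurable_pi_apply i

theorem sh_meas {m : ℕ} : Measurable (sh (n := m)) := by
  unfold sh
  refine measurable_pi_lambda _ fun i => ?_
  induction i using Fin.cases with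
  | zero => simp only [Fin.cons_zero]; exact measurable_const
  | succ i => simp only [Fin.cons_succ]; exact measurable_pi_apply i

theorem smul_up {m : ℕ} (b : ℝ) (v : Fin m → ℝ) : b • up v = Fin.snoc (b • v) b := by
  funext i
  unfold up
  induction i using Fin.lastCases with
  | last => simp [Fin.snoc_last]
  | cast i => simp [Fin.snoc_castSucc]

theorem covD {m : ℕ} {S : Set (Fin m → ℝ)} (hS : MeasurableSet S) (hm : ∀ x ∈ S, StrictMono x)
    {G : (Fin (m + 1) → ℝ) → ℝ≥0∞} (hG : Measurable G) :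
    MeasurableSet {v : Fin (m + 1) → ℝ | ∃ (b : ℝ) (x : Fin m → ℝ), 0 < b ∧ x ∈ S ∧ v = b • up (Co x)} ∧
    ∫⁻ b in Set.Ioi (0 : ℝ), ∫⁻ x in S, ENNReal.ofReal (b ^ m * Van x) * G (b • up (Co x)) =
      ∫⁻ v in {v : Fin (m + 1) → ℝ | ∃ (b : ℝ) (x : Fin m → ℝ), 0 < b ∧ x ∈ S ∧ v = b • up (Co x)}, G v := by
  set A : Set (Fin (m + 1) → ℝ) := {v | ∃ (b : ℝ) (x : Fin m → ℝ), 0 < b ∧ x ∈ S ∧ v = b • up (Co x)}
    with hA
  have hCoS : MeasurableSet (Co '' S) :=
    hS.image_of_continuousOn_injOn Co_cont.continuousOn fun x hx y hy h => Co_inj (hm x hx) (hm y hy) h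
  have hmem : ∀ (q : Fin m → ℝ) (b : ℝ), (Fin.snoc q b : Fin (m + 1) → ℝ) ∈ A ↔
      0 < b ∧ q ∈ (fun x => b • Co x) '' S := by
    intro q b
    constructor
    · rintro ⟨b', x, hb', hx, h⟩
      rw [smul_up] at h
      have h1 : b = b' := by
        have := congrFun h (Fin.last m)
        rwa [Fin.snoc_last, Fin.snoc_last] at this
      subst h1
      refine ⟨hb', x, hx, ?_⟩
      funext i
      have := congrFun h i.castSucc
      rw [Fin.snoc_castSucc, Fin.snoc_castSucc] at this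
      exact this.symm
    · rintro ⟨hb, x, hx, rfl⟩
      exact ⟨b, x, hb, hx, (smul_up b (Co x)).symm⟩
  have hAm : MeasurableSet A := by
    have e : A = {v | 0 < v (Fin.last m)} ∩
        (fun v : Fin (m + 1) → ℝ => (v (Fin.last m))⁻¹ • (fun i : Fin m => v i.castSucc)) ⁻¹' (Co '' S) := by
      ext v
      have hv : v = (Fin.snoc (fun i : Fin m => v i.castSucc) (v (Fin.last m)) : Fin (m + 1) → ℝ) := by
        funext i
        induction i using Fin.lastCases with
        | last => rw [Fin.snoc_last]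
        | cast i => rw [Fin.snoc_castSucc]
      rw [hv, hmem]
      simp only [Set.mem_inter_iff, Set.mem_setOf_eq, Fin.snoc_last, Set.mem_preimage,
        Fin.snoc_castSucc]
      constructor
      · rintro ⟨h1, x, hx, h2⟩
        refine ⟨h1, x, hx, ?_⟩
        rw [← h2, smul_smul, inv_mul_cancel₀ h1.ne', one_smul]
      · rintro ⟨h1, x, hx, h2⟩
        refine ⟨h1, x, hx, ?_⟩
        simp only
        rw [h2, smul_smul, mul_inv_cancel₀ h1.ne', one_smul]
    rw [e]
    refine (measurableSet_lt measurable_const (measurable_pi_apply _)).inter (hCoS.preimage ?_)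
    refine measurable_pi_lambda _ fun i => ?_
    exact (measurable_pi_apply _).inv.mul (measurable_pi_apply _)
  refine ⟨hAm, ?_⟩
  rw [← lintegral_indicator hAm, lint_snoc (hG.indicator hAm), ← lintegral_indicator measurableSet_Ioi]
  refine lintegral_congr fun b => ?_
  by_cases hb : 0 < b
  · rw [Set.indicator_of_mem (by exact hb)]
    have hSb : MeasurableSet ((fun x => b • Co x) '' S) :=
      hS.image_of_continuousOn_injOn (Co_cont.const_smul b).continuousOn
        fun x hx y hy h => Co_inj (hm x hx) (hm y hy) (smul_right_injective _ hb.ne' h)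
    have h1 : ∀ q : Fin m → ℝ, A.indicator G (Fin.snoc q b) =
        ((fun x => b • Co x) '' S).indicator (fun q => G (Fin.snoc q b : Fin (m + 1) → ℝ)) q := by
      intro q
      by_cases hq : q ∈ (fun x => b • Co x) '' S
      · rw [Set.indicator_of_mem ((hmem q b).2 ⟨hb, hq⟩), Set.indicator_of_mem hq]
      · rw [Set.indicator_of_notMem (fun h => hq ((hmem q b).1 h).2), Set.indicator_of_notMem hq]
    simp only [h1]
    rw [lintegral_indicator hSb, covS hb hS hm]
    simp only [smul_up]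
  · rw [Set.indicator_of_notMem (by exact hb)]
    have h1 : ∀ q : Fin m → ℝ, A.indicator G (Fin.snoc q b) = 0 := by
      intro q
      exact Set.indicator_of_notMem (fun h => hb ((hmem q b).1 h).1) _
    simp only [h1, lintegral_zero]

/-- second change of variables -/
theorem covB {m : ℕ} {κ : Fin m → ℝ} (hκ : StrictMono κ) (hκ0 : ∀ i, 0 < κ i)
    {G : (Fin (m + 1) → ℝ) → ℝ≥0∞} (hG : Measurable G) :
    ∫⁻ b in Set.Ioi (0 : ℝ), ∫⁻ x in {x | (∀ i, 0 < x i) ∧ I1 x κ},
      ENNReal.ofReal (b ^ m * Van x) * G (sh (Co κ) - b • up (Co x)) =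
    ∫⁻ l in {l | (∀ i, 0 < l i) ∧ I2 l κ}, ENNReal.ofReal (Van l) * G (Co l) := by
  have hS : MeasurableSet {x : Fin m → ℝ | (∀ i, 0 < x i) ∧ I1 x κ} :=
    meas_Pos.inter (measurable_prodMk_right (y := κ) meas_I1)
  have hL : MeasurableSet {l : Fin (m + 1) → ℝ | (∀ i, 0 < l i) ∧ I2 l κ} :=
    meas_Pos.inter (measurable_prodMk_right (y := κ) meas_I2)
  have hm : ∀ x ∈ {x : Fin m → ℝ | (∀ i, 0 < x i) ∧ I1 x κ}, StrictMono x := fun x hx => hx.2.monox
  have hmL : ∀ l ∈ {l : Fin (m + 1) → ℝ | (∀ i, 0 < l i) ∧ I2 l κ}, StrictMono l :=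
    fun x hx => hx.2.mono
  have hG2 : Measurable fun v : Fin (m + 1) → ℝ => G (sh (Co κ) - v) :=
    hG.comp (measurable_const.sub measurable_id)
  obtain ⟨hAm, hA⟩ := covD hS hm hG2
  rw [hA, ← covCo hL hmL G]
  have hLm : MeasurableSet (Co '' {l : Fin (m + 1) → ℝ | (∀ i, 0 < l i) ∧ I2 l κ}) :=
    hL.image_of_continuousOn_injOn Co_cont.continuousOn
      fun x hx y hy h => Co_inj (hmL x hx) (hmL y hy) h
  rw [← lintegral_indicator hAm, ← lintegral_indicator hLm,
    ← lintegral_sub_left_eq_self (Set.indicator (Co '' {l : Fin (m + 1) → ℝ |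
      (∀ i, 0 < l i) ∧ I2 l κ}) G) (sh (Co κ))]
  refine lintegral_congr fun v => ?_
  have hiff : (∃ (b : ℝ) (x : Fin m → ℝ), 0 < b ∧ x ∈ {x : Fin m → ℝ | (∀ i, 0 < x i) ∧ I1 x κ} ∧
      v = b • up (Co x)) ↔ sh (Co κ) - v ∈ Co '' {l : Fin (m + 1) → ℝ | (∀ i, 0 < l i) ∧ I2 l κ} := by
    constructor
    · rintro ⟨b, x, hb, hx, rfl⟩
      obtain ⟨l, h1, h2, h3⟩ := (setB hκ hκ0 (sh (Co κ) - b • up (Co x))).1 ⟨b, x, hb, hx.1, hx.2, rfl⟩
      exact ⟨l, ⟨h1, h2⟩, h3.symm⟩
    · rintro ⟨l, ⟨h1, h2⟩, h3⟩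
      obtain ⟨b, x, hb, hx1, hx2, h4⟩ := (setB hκ hκ0 (sh (Co κ) - v)).2 ⟨l, h1, h2, h3.symm⟩
      exact ⟨b, x, hb, ⟨hx1, hx2⟩, sub_right_injective h4⟩
  by_cases h : ∃ (b : ℝ) (x : Fin m → ℝ), 0 < b ∧ x ∈ {x : Fin m → ℝ | (∀ i, 0 < x i) ∧ I1 x κ} ∧
      v = b • up (Co x)
  · rw [Set.indicator_of_mem (by exact h), Set.indicator_of_mem (hiff.1 h)]
  · rw [Set.indicator_of_notMem (by exact h), Set.indicator_of_notMem (fun h2 => h (hiff.2 h2))]

/-- third change of variables -/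
theorem covC {m : ℕ} {l : Fin (m + 1) → ℝ} (hl : StrictMono l)
    {G : (Fin (m + 1) → ℝ) → ℝ≥0∞} (hG : Measurable G) :
    ∫⁻ c in Set.Ioi (0 : ℝ), ∫⁻ κ in {κ | I2 l κ},
      ENNReal.ofReal (c ^ m * Van κ) * G (c • up (Co κ)) =
    ∫⁻ g in Pos (m + 1), ENNReal.ofReal (Van l) * G (Mx l g) := by
  have hS : MeasurableSet {κ : Fin m → ℝ | I2 l κ} := measurable_prodMk_left (x := l) meas_I2
  obtain ⟨-, hA⟩ := covD hS (fun x hx => hx.monoy) hG
  rw [hA, ← covM hl]
  congr 2
  ext q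
  constructor
  · rintro ⟨c, κ, hc, hκ, rfl⟩
    obtain ⟨g, h1, h2⟩ := (setC hl _).1 ⟨c, κ, hc, hκ, rfl⟩
    exact ⟨g, h1, h2.symm⟩
  · rintro ⟨g, hg, rfl⟩
    obtain ⟨c, κ, hc, hκ, h⟩ := (setC hl _).2 ⟨g, hg, rfl⟩
    exact ⟨c, κ, hc, hκ, h⟩

end Pool.Agent.Y982.DE
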