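import Pool.Agent.Y982.DE.Pol

/-!
# DE-Inter: interlacing roots
-/

set_option autoImplicit false

open scoped BigOperators
open Polynomial Finset

namespace Pool.Agent.Y982.DE

theorem sgn_range (N : ℕ) : ∀ i, i ≤ N →
    ∏ j ∈ range N, (if j < i then (1 : ℝ) else -1) = (-1) ^ (N - i) := by
  induction N with
  | zero =>
    intro i hi
    have : i = 0 := by omega
    subst this
    simp
  | succ N ih =>
    intro i hi
    rcases Nat.lt_or_ge N i with h | h
    · have e : i = N + 1 := by omega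
      subst e
      rw [Nat.sub_self, pow_zero]
      refine prod_eq_one fun j hj => ?_
      rw [if_pos (mem_range.1 hj)]
    · rw [prod_range_succ, ih i h, if_neg (by omega)]
      have e : N + 1 - i = (N - i) + 1 := by omega
      rw [e, pow_succ]

theorem sgn_fin (N : ℕ) (i : ℕ) (hi : i ≤ N) :
    ∏ j : Fin N, (if (j : ℕ) < i then (1 : ℝ) else -1) = (-1) ^ (N - i) := by
  rw [← sgn_range N i hi, ← Fin.prod_univ_eq_prod_range (fun j => if j < i then (1 : ℝ) else -1)]

/-- interlacing of `N` points between `N+1` points -/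
def I2 {N : ℕ} (t : Fin (N + 1) → ℝ) (y : Fin N → ℝ) : Prop :=
  ∀ i : Fin N, t i.castSucc < y i ∧ y i < t i.succ

/-- interlacing of two sequences of the same length -/
def I1 {m : ℕ} (x k : Fin m → ℝ) : Prop := (∀ i, x i < k i) ∧ ∀ i j, i < j → k i < x j

theorem I2.mono {N : ℕ} {t : Fin (N + 1) → ℝ} {y : Fin N → ℝ} (h : I2 t y) : StrictMono t :=
  Fin.strictMono_iff_lt_succ.2 fun i => (h i).1.trans (h i).2

theorem I2.monoy {N : ℕ} {t : Fin (N + 1) → ℝ} {y : Fin N → ℝ} (h : I2 t y) : StrictMono y := by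
  intro i j hij
  have h1 : t i.succ ≤ t j.castSucc := h.mono.monotone (by
    rw [Fin.le_def]; simp only [Fin.val_succ, Fin.val_castSucc]; exact hij)
  exact ((h i).2.trans_le h1).trans (h j).1

theorem I1.monox {m : ℕ} {x k : Fin m → ℝ} (h : I1 x k) : StrictMono x :=
  fun i j hij => (h.1 i).trans (h.2 i j hij)

theorem I1.monok {m : ℕ} {x k : Fin m → ℝ} (h : I1 x k) : StrictMono k :=
  fun i j hij => (h.2 i j hij).trans (h.1 j)

theorem I2.lt_of {N : ℕ} {t : Fin (N + 1) → ℝ} {y : Fin N → ℝ} (h : I2 t y) {i : Fin (N + 1)}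
    {j : Fin N} (hij : (i : ℕ) ≤ j) : t i < y j := by
  have h1 : t i ≤ t j.castSucc := h.mono.monotone (by
    rw [Fin.le_def]; simpa using hij)
  exact h1.trans_lt (h j).1

theorem I2.gt_of {N : ℕ} {t : Fin (N + 1) → ℝ} {y : Fin N → ℝ} (h : I2 t y) {i : Fin (N + 1)}
    {j : Fin N} (hij : (j : ℕ) < i) : y j < t i := by
  have h1 : t j.succ ≤ t i := h.mono.monotone (by
    rw [Fin.le_def]; simp only [Fin.val_succ]; exact hij)
  exact (h j).2.trans_le h1

/-- sign pattern of the interlacing polynomial at the nodes -/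
theorem sign_I2 {N : ℕ} {t : Fin (N + 1) → ℝ} {y : Fin N → ℝ} (h : I2 t y) (i : Fin (N + 1)) :
    0 < (-1 : ℝ) ^ (N - (i : ℕ)) * ∏ j, (t i - y j) := by
  rw [← sgn_fin N i (by have := i.2; omega), ← prod_mul_distrib]
  refine prod_pos fun j _ => ?_
  split_ifs with hj
  · rw [one_mul]
    exact sub_pos.2 (h.gt_of hj)
  · have := h.lt_of (not_lt.1 hj)
    linarith

/-- sign pattern of the roots of the product with the own factor removed -/
theorem sign_Lx {n : ℕ} {x : Fin n → ℝ} (hx : StrictMono x) (i : Fin n) :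
    0 < (-1 : ℝ) ^ (n - (i + 1 : ℕ)) * Lx x i := by
  rw [← sgn_fin n (i + 1) i.2]
  have e : Lx x i = ∏ j : Fin n, (if j = i then (1 : ℝ) else x i - x j) := by
    unfold Lx
    rw [← Finset.mul_prod_erase univ (fun j => if j = i then (1 : ℝ) else x i - x j) (mem_univ i)]
    rw [if_pos rfl, one_mul]
    refine prod_congr rfl fun j hj => ?_
    rw [if_neg (mem_erase.1 hj).1]
  rw [e, ← prod_mul_distrib]
  refine prod_pos fun j _ => ?_
  by_cases hji : j = i
  · subst hji
    rw [if_pos (by omega), if_pos rfl]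
    norm_num
  · rw [if_neg hji]
    rcases lt_or_gt_of_ne hji with h | h
    · rw [if_pos (by have : (j : ℕ) < i := h; omega), one_mul]
      exact sub_pos.2 (hx h)
    · rw [if_neg (by have : (i : ℕ) < j := h; omega)]
      have := hx h
      linarith

/-- existence of interlacing roots -/
theorem roots_of_alt {N : ℕ} {t : Fin (N + 1) → ℝ} (ht : StrictMono t) {Q : ℝ[X]}
    (hd : Q.natDegree ≤ N) (hs : ∀ i : Fin (N + 1), 0 < (-1 : ℝ) ^ (N - (i : ℕ)) * Q.eval (t i)) :
    ∃ y : Fin N → ℝ, I2 t y ∧ Q = C (Q.coeff N) * pol y ∧ 0 < Q.coeff N := by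
  have hex : ∀ i : Fin N, ∃ y, t i.castSucc < y ∧ y < t i.succ ∧ Q.eval y = 0 := by
    intro i
    have hlt : t i.castSucc < t i.succ := ht (Fin.castSucc_lt_succ)
    have h1 := hs i.castSucc
    have h2 := hs i.succ
    have e : N - ((i.castSucc : Fin (N + 1)) : ℕ) = (N - ((i.succ : Fin (N + 1)) : ℕ)) + 1 := by
      simp only [Fin.val_castSucc, Fin.val_succ]
      have := i.2
      omega
    rw [e, pow_succ] at h1
    set s : ℝ := (-1) ^ (N - ((i.succ : Fin (N + 1)) : ℕ)) with hsdef
    have hc : ContinuousOn (fun z => s * Q.eval z) (Set.Icc (t i.castSucc) (t i.succ)) :=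
      (continuous_const.mul Q.continuous).continuousOn
    have h0 : (0 : ℝ) ∈ Set.Ioo (s * Q.eval (t i.castSucc)) (s * Q.eval (t i.succ)) := by
      constructor
      · have : s * -1 * Q.eval (t i.castSucc) = -(s * Q.eval (t i.castSucc)) := by ring
        linarith
      · exact h2
    obtain ⟨y, hy, hy2⟩ := intermediate_value_Ioo hlt.le hc h0
    refine ⟨y, hy.1, hy.2, ?_⟩
    have hs0 : s ≠ 0 := pow_ne_zero _ (by norm_num)
    exact (mul_eq_zero.1 hy2).resolve_left hs0
  choose y hy1 hy2 hy3 using hex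
  have hI : I2 t y := fun i => ⟨hy1 i, hy2 i⟩
  have hinj := hI.monoy.injective
  have hQ : Q = C (Q.coeff N) * pol y := by
    set R := C (Q.coeff N) * pol y with hR
    have hRd : R.natDegree ≤ N :=
      (Polynomial.natDegree_C_mul_le _ _).trans (pol_natDegree y).le
    have hRc : R.coeff N = Q.coeff N := by
      rw [hR, Polynomial.coeff_C_mul, pol_coeff_n, mul_one]
    have hz : ∀ i, (Q - R).eval (y i) = 0 := by
      intro i
      rw [Polynomial.eval_sub, hy3 i, hR, Polynomial.eval_mul, pol_eval,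
        Finset.prod_eq_zero (mem_univ i) (sub_self _)]
      simp
    have hdeg : (Q - R).degree < (N : WithBot ℕ) := by
      rw [Polynomial.degree_lt_iff_coeff_zero]
      intro m hm
      rw [Polynomial.coeff_sub]
      rcases hm.eq_or_lt with h | h
      · rw [← h, hRc, sub_self]
      · rw [Polynomial.coeff_eq_zero_of_natDegree_lt (by omega),
          Polynomial.coeff_eq_zero_of_natDegree_lt (by omega), sub_self]
    have h0 : Q - R = 0 := by
      by_contra hne
      have := Polynomial.eq_zero_of_natDegree_lt_card_of_eval_eq_zero (Q - R) hinj hz (by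
        rw [Fintype.card_fin]
        exact (Polynomial.natDegree_lt_iff_degree_lt hne).2 hdeg)
      exact hne this
    exact sub_eq_zero.1 h0
  refine ⟨y, hI, hQ, ?_⟩
  have h1 := hs (Fin.last N)
  rw [hQ] at h1
  simp only [Fin.val_last, Nat.sub_self, pow_zero, one_mul, Polynomial.eval_mul, Polynomial.eval_C,
    pol_eval] at h1
  have h2 : 0 < ∏ i, (t (Fin.last N) - y i) :=
    prod_pos fun j _ => sub_pos.2 (hI.gt_of (by simp))
  exact (mul_pos_iff_of_pos_right h2).1 h1

/-- a monic polynomial is positive far to the right -/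
theorem exists_large {n : ℕ} (hn : 0 < n) {Q : ℝ[X]} (hd : Q.natDegree ≤ n) (hc : Q.coeff n = 1)
    (A : ℝ) : ∃ T, A < T ∧ 0 < Q.eval T := by
  have h1 : Q.natDegree = n := by
    apply le_antisymm hd
    exact Polynomial.le_natDegree_of_ne_zero (by rw [hc]; norm_num)
  have h2 : 0 < Q.degree := Polynomial.natDegree_pos_iff_degree_pos.1 (by omega)
  have h3 : 0 ≤ Q.leadingCoeff := by
    rw [Polynomial.leadingCoeff, h1, hc]; norm_num
  have h4 := Q.tendsto_atTop_of_leadingCoeff_nonneg h2 h3
  have h5 := (h4.eventually_gt_atTop 0).and (Filter.eventually_gt_atTop A)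
  obtain ⟨T, hT⟩ := h5.exists
  exact ⟨T, hT.2, hT.1⟩

theorem snoc_mono {m : ℕ} {x : Fin m → ℝ} (hx : StrictMono x) {T : ℝ} (hT : ∀ i, x i < T) :
    StrictMono (Fin.snoc x T : Fin (m + 1) → ℝ) := by
  intro i j hij
  induction i using Fin.lastCases with
  | last =>
    exact absurd hij (not_lt.2 (Fin.le_last j))
  | cast i =>
    induction j using Fin.lastCases with
    | last => rw [Fin.snoc_castSucc, Fin.snoc_last]; exact hT i
    | cast j =>
      rw [Fin.snoc_castSucc, Fin.snoc_castSucc]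
      exact hx hij

theorem cons_mono {m : ℕ} {x : Fin m → ℝ} (hx : StrictMono x) {T : ℝ} (hT : ∀ i, T < x i) :
    StrictMono (Fin.cons T x : Fin (m + 1) → ℝ) := by
  intro i j hij
  induction j using Fin.cases with
  | zero => exact absurd hij (not_lt.2 (Fin.zero_le i))
  | succ j =>
    induction i using Fin.cases with
    | zero => rw [Fin.cons_zero, Fin.cons_succ]; exact hT j
    | succ i =>
      rw [Fin.cons_succ, Fin.cons_succ]
      exact hx (Fin.succ_lt_succ_iff.1 hij)

/-- interlacing with the snoc sequence -/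
theorem I1_of_snoc {m : ℕ} {x k : Fin m → ℝ} {T : ℝ}
    (h : I2 (Fin.snoc x T : Fin (m + 1) → ℝ) k) : I1 x k := by
  constructor
  · intro i
    have := (h i).1
    rwa [Fin.snoc_castSucc] at this
  · intro i j hij
    have h1 := h.gt_of (i := j.castSucc) (j := i) (by simpa using hij)
    rwa [Fin.snoc_castSucc] at h1

theorem snoc_of_I1 {m : ℕ} {x k : Fin m → ℝ} (h : I1 x k) {T : ℝ} (hT : ∀ i, k i < T) :
    I2 (Fin.snoc x T : Fin (m + 1) → ℝ) k := by
  intro i
  refine ⟨?_, ?_⟩
  · rw [Fin.snoc_castSucc]; exact h.1 i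
  · by_cases hi : (i : ℕ) + 1 < m
    · have e : i.succ = Fin.castSucc ⟨i + 1, hi⟩ := rfl
      rw [e, Fin.snoc_castSucc]
      exact h.2 i _ (by rw [Fin.lt_def]; simp)
    · have e : i.succ = Fin.last m := Fin.ext (by simp; have := i.2; omega)
      rw [e, Fin.snoc_last]
      exact hT i

theorem exists_gt_all {m : ℕ} (k : Fin m → ℝ) : ∃ T, ∀ i, k i < T := by
  obtain ⟨M, hM⟩ := (Set.finite_range k).bddAbove
  exact ⟨M + 1, fun i => (hM ⟨i, rfl⟩).trans_lt (lt_add_one M)⟩

/-- sign pattern for `I1` -/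
theorem sign_I1 {m : ℕ} {x k : Fin m → ℝ} (h : I1 x k) (i : Fin m) :
    0 < (-1 : ℝ) ^ (m - (i : ℕ)) * ∏ j, (x i - k j) := by
  obtain ⟨T, hT⟩ := exists_gt_all k
  have := sign_I2 (snoc_of_I1 h hT) i.castSucc
  rwa [Fin.snoc_castSucc, Fin.val_castSucc] at this

theorem sign_I1' {m : ℕ} {x k : Fin m → ℝ} (h : I1 x k) (i : Fin m) :
    0 < (-1 : ℝ) ^ (m - (i + 1 : ℕ)) * ∏ j, (k i - x j) := by
  rw [← sgn_fin m (i + 1) i.2, ← prod_mul_distrib]
  refine prod_pos fun j _ => ?_
  split_ifs with hj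
  · rw [one_mul]
    rcases (show j ≤ i from by rw [Fin.le_def]; omega).eq_or_lt with h2 | h2
    · rw [h2]; exact sub_pos.2 (h.1 i)
    · exact sub_pos.2 ((h.1 j).trans (h.monok h2))
  · have h2 : i < j := by rw [Fin.lt_def]; omega
    have := h.2 i j h2
    linarith

/-- first set equality -/
theorem setA {m : ℕ} {x : Fin m → ℝ} (hx : StrictMono x) (k : Fin m → ℝ) :
    (∃ g : Fin m → ℝ, (∀ i, 0 < g i) ∧ k = Co x - Mx x g) ↔ ∃ κ : Fin m → ℝ, I1 x κ ∧ k = Co κ := by
  rcases Nat.eq_zero_or_pos m with h0 | hm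
  · subst h0
    constructor
    · rintro ⟨g, _, _⟩
      exact ⟨x, ⟨fun i => i.elim0, fun i => i.elim0⟩, Subsingleton.elim _ _⟩
    · rintro ⟨κ, _, _⟩
      exact ⟨x, fun i => i.elim0, Subsingleton.elim _ _⟩
  constructor
  · rintro ⟨g, hg, rfl⟩
    set Q : ℝ[X] := pol x - lin m (Mx x g) with hQ
    have hQ2 : Q = X ^ m + lin m (Co x - Mx x g) := by
      rw [hQ, pol_eq, map_sub]; ring
    have hd : Q.natDegree ≤ m := by
      rw [hQ]
      refine (Polynomial.natDegree_sub_le _ _).trans (max_le (pol_natDegree x).le ?_)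
      exact Polynomial.natDegree_le_of_degree_le (lin_degree _).le
    have hc : Q.coeff m = 1 := by
      rw [hQ, Polynomial.coeff_sub, pol_coeff_n, lin_coeff, dif_neg (lt_irrefl _), sub_zero]
    have hev : ∀ i, Q.eval (x i) = -(g i * Lx x i) := by
      intro i
      rw [hQ, Polynomial.eval_sub, eval_Mx_node, pol_eval, Finset.prod_eq_zero (mem_univ i) (sub_self _),
        zero_sub]
    obtain ⟨A, hA⟩ := exists_gt_all x
    obtain ⟨T, hT1, hT2⟩ := exists_large hm hd hc A
    have ht : StrictMono (Fin.snoc x T : Fin (m + 1) → ℝ) := snoc_mono hx fun i => (hA i).trans hT1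
    obtain ⟨κ, hκ, hQκ, _⟩ := roots_of_alt ht hd (by
      intro i
      induction i using Fin.lastCases with
      | last => rw [Fin.snoc_last, Fin.val_last, Nat.sub_self, pow_zero, one_mul]; exact hT2
      | cast i =>
        rw [Fin.snoc_castSucc, hev, Fin.val_castSucc]
        have h1 := sign_Lx hx i
        have e : m - (i : ℕ) = (m - (i + 1 : ℕ)) + 1 := by have := i.2; omega
        rw [e, pow_succ]
        have h2 := mul_pos h1 (hg i)
        have e2 : (-1 : ℝ) ^ (m - (i + 1 : ℕ)) * -1 * -(g i * Lx x i) =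
            (-1 : ℝ) ^ (m - (i + 1 : ℕ)) * Lx x i * g i := by ring
        rw [e2]
        exact h2)
    refine ⟨κ, I1_of_snoc hκ, ?_⟩
    rw [hc, C_1, one_mul, hQ2, pol_eq] at hQκ
    exact lin_inj (add_left_cancel hQκ)
  · rintro ⟨κ, hκ, rfl⟩
    have hL : ∀ i, Lx x i ≠ 0 := fun i h => by
      have := sign_Lx hx i
      rw [h, mul_zero] at this
      exact lt_irrefl _ this
    refine ⟨fun i => -(∏ j, (x i - κ j)) / Lx x i, fun i => ?_, ?_⟩
    · have h1 := sign_Lx hx i
      have h2 := sign_I1 hκ i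
      have e : m - (i : ℕ) = (m - (i + 1 : ℕ)) + 1 := by have := i.2; omega
      rw [e, pow_succ] at h2
      have h3 := div_pos h2 h1
      have hs : ((-1 : ℝ)) ^ (m - (i + 1 : ℕ)) ≠ 0 := pow_ne_zero _ (by norm_num)
      have e4 : -(∏ j, (x i - κ j)) / Lx x i = ((-1 : ℝ) ^ (m - (i + 1 : ℕ)) * -1 *
          ∏ j, (x i - κ j)) / ((-1 : ℝ) ^ (m - (i + 1 : ℕ)) * Lx x i) := by
        have := hL i
        field_simp
      show 0 < -(∏ j, (x i - κ j)) / Lx x i
      rw [e4]
      exact h3
    · apply lagr_vec hx.injective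
      intro i
      rw [map_sub, Polynomial.eval_sub, eval_Mx_node]
      have h1 : (lin m (Co κ)).eval (x i) = (pol κ).eval (x i) - (x i) ^ m := by
        rw [pol_eq κ]; simp
      have h2 : (lin m (Co x)).eval (x i) = (pol x).eval (x i) - (x i) ^ m := by
        rw [pol_eq x]; simp
      have hz : ∏ j, (x i - x j) = 0 := Finset.prod_eq_zero (mem_univ i) (sub_self _)
      rw [h1, h2, pol_eval, pol_eval, hz, div_mul_cancel₀ _ (hL i)]
      ring

/-- third set equality -/
theorem setC {m : ℕ} {l : Fin (m + 1) → ℝ} (hl : StrictMono l) (q : Fin (m + 1) → ℝ) :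
    (∃ (c : ℝ) (κ : Fin m → ℝ), 0 < c ∧ I2 l κ ∧ q = c • up (Co κ)) ↔
      ∃ g : Fin (m + 1) → ℝ, (∀ i, 0 < g i) ∧ q = Mx l g := by
  have hL : ∀ i, Lx l i ≠ 0 := fun i h => by
    have := sign_Lx hl i
    rw [h, mul_zero] at this
    exact lt_irrefl _ this
  constructor
  · rintro ⟨c, κ, hc, hκ, rfl⟩
    refine ⟨fun i => c * (∏ j, (l i - κ j)) / Lx l i, fun i => ?_, ?_⟩
    · have h1 := sign_Lx hl i
      have h2 := mul_pos hc (sign_I2 hκ i)
      have e : m + 1 - (i + 1 : ℕ) = m - (i : ℕ) := by omega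
      rw [e] at h1
      have hs : ((-1 : ℝ)) ^ (m - (i : ℕ)) ≠ 0 := pow_ne_zero _ (by norm_num)
      have e4 : c * (∏ j, (l i - κ j)) / Lx l i = (c * ((-1 : ℝ) ^ (m - (i : ℕ)) *
          ∏ j, (l i - κ j))) / ((-1 : ℝ) ^ (m - (i : ℕ)) * Lx l i) := by
        have := hL i
        field_simp
      show 0 < c * (∏ j, (l i - κ j)) / Lx l i
      rw [e4]
      exact div_pos h2 h1
    · apply lagr_vec hl.injective
      intro i
      rw [map_smul, Polynomial.eval_smul, eval_Mx_node, lin_up_Co, pol_eval, smul_eq_mul,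
        div_mul_cancel₀ _ (hL i)]
  · rintro ⟨g, hg, rfl⟩
    set Q : ℝ[X] := lin (m + 1) (Mx l g) with hQ
    have hd : Q.natDegree ≤ m := by
      by_cases h0 : Q = 0
      · rw [h0]; simp
      · have := (Polynomial.natDegree_lt_iff_degree_lt h0).2 (lin_degree (Mx l g))
        omega
    obtain ⟨κ, hκ, hQκ, hpos⟩ := roots_of_alt hl hd (by
      intro i
      rw [hQ, eval_Mx_node]
      have h1 := sign_Lx hl i
      have e : m + 1 - (i + 1 : ℕ) = m - (i : ℕ) := by omega
      rw [e] at h1
      have h2 := mul_pos h1 (hg i)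
      have e2 : (-1 : ℝ) ^ (m - (i : ℕ)) * (g i * Lx l i) =
            (-1 : ℝ) ^ (m - (i : ℕ)) * Lx l i * g i := by ring
      rw [e2]
      exact h2)
    refine ⟨Q.coeff m, κ, hpos, hκ, ?_⟩
    apply lin_inj
    rw [map_smul, lin_up_Co, ← hQ, Polynomial.smul_eq_C_mul]
    exact hQκ

/-- second set equality -/
theorem setB {m : ℕ} {κ : Fin m → ℝ} (hκ : StrictMono κ) (hκ0 : ∀ i, 0 < κ i)
    (p : Fin (m + 1) → ℝ) :
    (∃ (b : ℝ) (x : Fin m → ℝ), 0 < b ∧ (∀ i, 0 < x i) ∧ I1 x κ ∧
      p = sh (Co κ) - b • up (Co x)) ↔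
      ∃ l : Fin (m + 1) → ℝ, (∀ i, 0 < l i) ∧ I2 l κ ∧ p = Co l := by
  constructor
  · rintro ⟨b, x, hb, hx0, hx, rfl⟩
    set Q : ℝ[X] := X * pol κ - C b * pol x with hQ
    have hQ2 : Q = X ^ (m + 1) + lin (m + 1) (sh (Co κ) - b • up (Co x)) := by
      rw [hQ, map_sub, map_smul, lin_up_Co, lin_sh, pol_eq κ, Polynomial.smul_eq_C_mul]
      ring
    have hd : Q.natDegree ≤ m + 1 := by
      rw [hQ]
      refine (Polynomial.natDegree_sub_le _ _).trans (max_le ?_ ?_)
      · refine Polynomial.natDegree_mul_le.trans ?_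
        rw [pol_natDegree, Polynomial.natDegree_X]
        omega
      · refine (Polynomial.natDegree_C_mul_le _ _).trans ?_
        rw [pol_natDegree]
        omega
    have hc : Q.coeff (m + 1) = 1 := by
      rw [hQ2, Polynomial.coeff_add, Polynomial.coeff_X_pow, if_pos rfl, lin_coeff,
        dif_neg (lt_irrefl _), add_zero]
    obtain ⟨A, hA⟩ := exists_gt_all κ
    obtain ⟨T, hT1, hT2⟩ := exists_large (Nat.succ_pos m) hd hc (max A 0)
    have hAT : A < T := (le_max_left _ _).trans_lt hT1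
    have h0T : 0 < T := (le_max_right _ _).trans_lt hT1
    have ht1 : StrictMono (Fin.snoc κ T : Fin (m + 1) → ℝ) := snoc_mono hκ fun i => (hA i).trans hAT
    have hpos1 : ∀ i, 0 < (Fin.snoc κ T : Fin (m + 1) → ℝ) i := by
      intro i
      induction i using Fin.lastCases with
      | last => rw [Fin.snoc_last]; exact h0T
      | cast i => rw [Fin.snoc_castSucc]; exact hκ0 i
    have ht : StrictMono (Fin.cons 0 (Fin.snoc κ T : Fin (m + 1) → ℝ) : Fin (m + 1 + 1) → ℝ) :=
      cons_mono ht1 hpos1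
    obtain ⟨l, hl, hQl, _⟩ := roots_of_alt ht hd (by
      intro i
      induction i using Fin.cases with
      | zero =>
        rw [Fin.cons_zero, hQ]
        simp only [Polynomial.eval_sub, Polynomial.eval_mul, Polynomial.eval_X, zero_mul,
          Polynomial.eval_C, pol_eval, zero_sub, Fin.val_zero, Nat.sub_zero]
        have e : ∏ i, -x i = (-1) ^ m * ∏ i, x i := by
          rw [Finset.prod_neg, Finset.card_univ, Fintype.card_fin]
        rw [e]
        have h1 : 0 < ∏ i, x i := prod_pos fun i _ => hx0 i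
        have e2 : (-1 : ℝ) ^ (m + 1) * -(b * ((-1) ^ m * ∏ i, x i)) =
            ((-1 : ℝ) ^ m * (-1) ^ m) * (b * ∏ i, x i) := by ring
        rw [e2, ← mul_pow]
        norm_num
        exact mul_pos hb h1
      | succ i =>
        rw [Fin.cons_succ]
        induction i using Fin.lastCases with
        | last =>
          rw [Fin.snoc_last]
          simp only [Fin.val_succ, Fin.val_last, Nat.sub_self, pow_zero, one_mul]
          exact hT2
        | cast i =>
          rw [Fin.snoc_castSucc, hQ]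
          simp only [Polynomial.eval_sub, Polynomial.eval_mul, Polynomial.eval_X,
            Polynomial.eval_C, Fin.val_succ, Fin.val_castSucc]
          rw [pol_eval κ, Finset.prod_eq_zero (mem_univ i) (sub_self (κ i)), mul_zero, zero_sub,
            pol_eval]
          have h1 := mul_pos hb (sign_I1' hx i)
          have e : m + 1 - (i + 1 : ℕ) = (m - (i + 1 : ℕ)) + 1 := by have := i.2; omega
          rw [e, pow_succ]
          have e2 : (-1 : ℝ) ^ (m - (i + 1 : ℕ)) * -1 * -(b * ∏ j, (κ i - x j)) =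
              b * ((-1 : ℝ) ^ (m - (i + 1 : ℕ)) * ∏ j, (κ i - x j)) := by ring
          rw [e2]
          exact h1)
    have hI2 : I2 l κ := by
      intro i
      constructor
      · have := hl.gt_of (i := (Fin.succ (Fin.castSucc i))) (j := i.castSucc) (by simp)
        rwa [Fin.cons_succ, Fin.snoc_castSucc] at this
      · have := hl.lt_of (i := (Fin.succ (Fin.castSucc i))) (j := i.succ) (by simp)
        rwa [Fin.cons_succ, Fin.snoc_castSucc] at this
    refine ⟨l, fun i => ?_, hI2, ?_⟩
    · have := hl.lt_of (i := 0) (j := i) (by simp)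
      rwa [Fin.cons_zero] at this
    · rw [hc, C_1, one_mul, hQ2, pol_eq] at hQl
      exact lin_inj (add_left_cancel hQl)
  · rintro ⟨l, hl0, hl, rfl⟩
    set Q : ℝ[X] := X * pol κ - pol l with hQ
    have hQ2 : Q = lin (m + 1) (sh (Co κ) - Co l) := by
      rw [hQ, map_sub, lin_sh, pol_eq κ, pol_eq l]
      ring
    have hd : Q.natDegree ≤ m := by
      by_cases h0 : Q = 0
      · rw [h0]; simp
      · have := (Polynomial.natDegree_lt_iff_degree_lt h0).2 (by rw [hQ2]; exact lin_degree _)
        omega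
    have ht : StrictMono (Fin.cons 0 κ : Fin (m + 1) → ℝ) := cons_mono hκ hκ0
    obtain ⟨x, hx, hQx, hpos⟩ := roots_of_alt ht hd (by
      intro i
      induction i using Fin.cases with
      | zero =>
        rw [Fin.cons_zero, hQ]
        simp only [Polynomial.eval_sub, Polynomial.eval_mul, Polynomial.eval_X, zero_mul,
          pol_eval, zero_sub, Fin.val_zero, Nat.sub_zero]
        have e : ∏ i, -l i = (-1) ^ (m + 1) * ∏ i, l i := by
          rw [Finset.prod_neg, Finset.card_univ, Fintype.card_fin]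
        rw [e]
        have h1 : 0 < ∏ i, l i := prod_pos fun i _ => hl0 i
        have e2 : (-1 : ℝ) ^ m * -((-1) ^ (m + 1) * ∏ i, l i) =
            ((-1 : ℝ) ^ m * (-1) ^ m) * (∏ i, l i) := by ring
        rw [e2, ← mul_pow]
        norm_num
        exact h1
      | succ i =>
        rw [Fin.cons_succ, hQ]
        simp only [Polynomial.eval_sub, Polynomial.eval_mul, Polynomial.eval_X,
          Fin.val_succ]
        rw [pol_eval κ, Finset.prod_eq_zero (mem_univ i) (sub_self (κ i)), mul_zero, zero_sub,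
          pol_eval]
        have h1 : 0 < (-1 : ℝ) ^ (m - (i : ℕ)) * ∏ j : Fin (m + 1), (κ i - l j) := by
          have e3 : (-1 : ℝ) ^ (m - (i : ℕ)) = (-1 : ℝ) ^ (m + 1 - (i + 1 : ℕ)) := by
            congr 1; omega
          rw [e3, ← sgn_fin (m + 1) (i + 1) (by have := i.2; omega), ← prod_mul_distrib]
          refine prod_pos fun j _ => ?_
          split_ifs with hj
          · rw [one_mul]
            exact sub_pos.2 (hl.lt_of (by omega))
          · have := hl.gt_of (i := j) (j := i) (by omega)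
            linarith
        have e : m - (i : ℕ) = (m - (i + 1 : ℕ)) + 1 := by have := i.2; omega
        rw [e, pow_succ] at h1
        have e2 : (-1 : ℝ) ^ (m - (i + 1 : ℕ)) * -(∏ j, (κ i - l j)) =
            (-1 : ℝ) ^ (m - (i + 1 : ℕ)) * -1 * ∏ j, (κ i - l j) := by ring
        rw [e2]
        exact h1)
    have hI1 : I1 x κ := by
      constructor
      · intro i
        have := (hx i).2
        rwa [Fin.cons_succ] at this
      · intro i j hij
        have := hx.lt_of (i := i.succ) (j := j) (by simpa using hij)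
        rwa [Fin.cons_succ] at this
    refine ⟨Q.coeff m, x, hpos, fun i => ?_, hI1, ?_⟩
    · have := hx.lt_of (i := 0) (j := i) (by simp)
      rwa [Fin.cons_zero] at this
    · apply lin_inj
      rw [map_sub, map_smul, lin_up_Co, lin_sh, Polynomial.smul_eq_C_mul, ← hQx, hQ, pol_eq κ,
        pol_eq l]
      ring

end Pool.Agent.Y982.DE
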