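import Mathlib

/-!
# DE-Pol: polynomials with given roots, coefficient vectors
-/

set_option autoImplicit false

open scoped BigOperators
open Polynomial Finset

namespace Pool.Agent.Y982.DE

/-- monic polynomial with roots `x` -/
noncomputable def pol {n : ℕ} (x : Fin n → ℝ) : ℝ[X] := ∏ i, (X - C (x i))

/-- the lower coefficients -/
noncomputable def Co {n : ℕ} (x : Fin n → ℝ) : Fin n → ℝ := fun k => (pol x).coeff k

/-- polynomial with given coefficients -/
noncomputable def lin (n : ℕ) : (Fin n → ℝ) →ₗ[ℝ] ℝ[X] :=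
  ∑ k : Fin n, (Polynomial.monomial (k : ℕ)).comp (LinearMap.proj k)

theorem lin_apply {n : ℕ} (v : Fin n → ℝ) : lin n v = ∑ k : Fin n, Polynomial.monomial (k : ℕ) (v k) := by
  unfold lin
  simp [LinearMap.sum_apply]

theorem lin_coeff {n : ℕ} (v : Fin n → ℝ) (j : ℕ) :
    (lin n v).coeff j = if h : j < n then v ⟨j, h⟩ else 0 := by
  rw [lin_apply, Polynomial.finset_sum_coeff]
  simp only [Polynomial.coeff_monomial]
  split_ifs with h
  · rw [Finset.sum_eq_single (⟨j, h⟩ : Fin n)]
    · simp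
    · intro k _ hk
      rw [if_neg]
      intro h2
      exact hk (Fin.ext h2)
    · intro h2; exact absurd (mem_univ _) h2
  · refine Finset.sum_eq_zero fun k _ => ?_
    rw [if_neg]
    intro h2
    exact h (h2 ▸ k.2)

theorem lin_coeff' {n : ℕ} (v : Fin n → ℝ) (k : Fin n) : (lin n v).coeff k = v k := by
  rw [lin_coeff, dif_pos k.2]

theorem lin_degree {n : ℕ} (v : Fin n → ℝ) : (lin n v).degree < n := by
  rw [Polynomial.degree_lt_iff_coeff_zero]
  intro m hm
  rw [lin_coeff, dif_neg (by omega)]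

theorem lin_eval {n : ℕ} (v : Fin n → ℝ) (z : ℝ) : (lin n v).eval z = ∑ k : Fin n, v k * z ^ (k : ℕ) := by
  rw [lin_apply, Polynomial.eval_finset_sum]
  simp [Polynomial.eval_monomial]

theorem lin_inj {n : ℕ} {v w : Fin n → ℝ} (h : lin n v = lin n w) : v = w := by
  funext k
  rw [← lin_coeff' v k, h, lin_coeff']

theorem eq_lin {n : ℕ} {Q : ℝ[X]} (h : Q.degree < n) : Q = lin n (fun k => Q.coeff k) := by
  ext j
  rw [lin_coeff]
  split_ifs with hj
  · rfl
  · exact (Polynomial.degree_lt_iff_coeff_zero Q n).1 h j (by omega)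

theorem pol_monic {n : ℕ} (x : Fin n → ℝ) : (pol x).Monic :=
  Polynomial.monic_prod_of_monic _ _ fun i _ => Polynomial.monic_X_sub_C _

theorem pol_natDegree {n : ℕ} (x : Fin n → ℝ) : (pol x).natDegree = n := by
  unfold pol
  rw [Polynomial.natDegree_prod_of_monic _ _ fun i _ => Polynomial.monic_X_sub_C _]
  simp

theorem pol_eval {n : ℕ} (x : Fin n → ℝ) (z : ℝ) : (pol x).eval z = ∏ i, (z - x i) := by
  unfold pol
  rw [Polynomial.eval_prod]
  simp

theorem pol_coeff_n {n : ℕ} (x : Fin n → ℝ) : (pol x).coeff n = 1 := by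
  have := pol_monic x
  rw [Polynomial.Monic, Polynomial.leadingCoeff, pol_natDegree] at this
  exact this

theorem pol_eq {n : ℕ} (x : Fin n → ℝ) : pol x = X ^ n + lin n (Co x) := by
  ext j
  rw [Polynomial.coeff_add, Polynomial.coeff_X_pow, lin_coeff]
  rcases lt_trichotomy j n with h | h | h
  · rw [if_neg (by omega), dif_pos h, zero_add]; rfl
  · subst h
    rw [if_pos rfl, dif_neg (lt_irrefl _), add_zero, pol_coeff_n]
  · rw [if_neg (by omega), dif_neg (by omega), add_zero]
    exact Polynomial.coeff_eq_zero_of_natDegree_lt (by rw [pol_natDegree]; exact h)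

theorem monic_eq {n : ℕ} {Q : ℝ[X]} (hd : Q.natDegree ≤ n) (hc : Q.coeff n = 1) :
    Q = X ^ n + lin n (fun k => Q.coeff k) := by
  ext j
  rw [Polynomial.coeff_add, Polynomial.coeff_X_pow, lin_coeff]
  rcases lt_trichotomy j n with h | h | h
  · rw [if_neg (by omega), dif_pos h, zero_add]
  · subst h
    rw [if_pos rfl, dif_neg (lt_irrefl _), add_zero, hc]
  · rw [if_neg (by omega), dif_neg (by omega), add_zero]
    exact Polynomial.coeff_eq_zero_of_natDegree_lt (by omega)

/-- append the leading coefficient `1` -/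
def up {n : ℕ} (v : Fin n → ℝ) : Fin (n + 1) → ℝ := Fin.snoc v 1

/-- multiply by `X` -/
def sh {n : ℕ} (v : Fin n → ℝ) : Fin (n + 1) → ℝ := Fin.cons 0 v

theorem lin_up {n : ℕ} (v : Fin n → ℝ) : lin (n + 1) (up v) = X ^ n + lin n v := by
  ext j
  rw [Polynomial.coeff_add, Polynomial.coeff_X_pow, lin_coeff, lin_coeff]
  rcases lt_trichotomy j n with h | h | h
  · rw [dif_pos (by omega : j < n + 1), if_neg (by omega), dif_pos h, zero_add]
    unfold up
    have : (⟨j, by omega⟩ : Fin (n + 1)) = Fin.castSucc ⟨j, h⟩ := rfl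
    rw [this, Fin.snoc_castSucc]
  · subst h
    rw [dif_pos (by omega : j < j + 1), if_pos rfl, dif_neg (lt_irrefl _), add_zero]
    unfold up
    have : (⟨j, by omega⟩ : Fin (j + 1)) = Fin.last j := rfl
    rw [this, Fin.snoc_last]
  · rw [dif_neg (by omega), if_neg (by omega), dif_neg (by omega), add_zero]

theorem lin_sh {n : ℕ} (v : Fin n → ℝ) : lin (n + 1) (sh v) = X * lin n v := by
  ext j
  rw [lin_coeff]
  cases j with
  | zero =>
    rw [dif_pos (by omega : 0 < n + 1), Polynomial.coeff_X_mul_zero]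
    rfl
  | succ j =>
    rw [Polynomial.coeff_X_mul, lin_coeff]
    by_cases h : j < n
    · rw [dif_pos (by omega : j + 1 < n + 1), dif_pos h]
      rfl
    · rw [dif_neg (by omega), dif_neg h]

theorem lin_up_Co {n : ℕ} (x : Fin n → ℝ) : lin (n + 1) (up (Co x)) = pol x := by
  rw [lin_up, ← pol_eq]

/-- the matrix of the products with one factor removed -/
noncomputable def Mm {n : ℕ} (x : Fin n → ℝ) : Matrix (Fin n) (Fin n) ℝ :=
  fun k i => (∏ j ∈ univ.erase i, (X - C (x j))).coeff k

noncomputable def Mx {n : ℕ} (x : Fin n → ℝ) : (Fin n → ℝ) →ₗ[ℝ] (Fin n → ℝ) := Matrix.toLin' (Mm x)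

theorem erase_degree {n : ℕ} (x : Fin n → ℝ) (i : Fin n) :
    (∏ j ∈ univ.erase i, (X - C (x j))).degree < (n : WithBot ℕ) := by
  have h1 : (∏ j ∈ univ.erase i, (X - C (x j))).Monic :=
    Polynomial.monic_prod_of_monic _ _ fun i _ => Polynomial.monic_X_sub_C _
  have h2 : (∏ j ∈ univ.erase i, (X - C (x j))).natDegree = n - 1 := by
    rw [Polynomial.natDegree_prod_of_monic _ _ fun i _ => Polynomial.monic_X_sub_C _]
    simp [Finset.card_erase_of_mem]
  have hn : 0 < n := i.pos
  rw [Polynomial.degree_eq_natDegree h1.ne_zero, h2]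
  exact_mod_cast (by omega : n - 1 < n)

theorem lin_Mx {n : ℕ} (x g : Fin n → ℝ) :
    lin n (Mx x g) = ∑ i, C (g i) * ∏ j ∈ univ.erase i, (X - C (x j)) := by
  ext k
  rw [lin_coeff, Polynomial.finset_sum_coeff]
  simp only [Polynomial.coeff_C_mul]
  split_ifs with h
  · unfold Mx
    rw [Matrix.toLin'_apply, Matrix.mulVec, dotProduct]
    refine sum_congr rfl fun i _ => ?_
    rw [mul_comm]
    rfl
  · symm
    refine sum_eq_zero fun i _ => ?_
    rw [(Polynomial.degree_lt_iff_coeff_zero _ n).1 (erase_degree x i) k (by omega), mul_zero]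

theorem eval_Mx {n : ℕ} (x g : Fin n → ℝ) (z : ℝ) :
    (lin n (Mx x g)).eval z = ∑ i, g i * ∏ j ∈ univ.erase i, (z - x j) := by
  rw [lin_Mx, Polynomial.eval_finset_sum]
  refine sum_congr rfl fun i _ => ?_
  rw [Polynomial.eval_mul, Polynomial.eval_C, Polynomial.eval_prod]
  simp

/-- product of the differences at `i` -/
noncomputable def Lx {n : ℕ} (x : Fin n → ℝ) (i : Fin n) : ℝ := ∏ j ∈ univ.erase i, (x i - x j)

theorem erase_zero {n : ℕ} (x : Fin n → ℝ) {i l : Fin n} (h : i ≠ l) :
    ∏ j ∈ univ.erase i, (x l - x j) = 0 :=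
  Finset.prod_eq_zero (mem_erase.2 ⟨h.symm, mem_univ l⟩) (sub_self _)

theorem eval_Mx_node {n : ℕ} (x g : Fin n → ℝ) (l : Fin n) :
    (lin n (Mx x g)).eval (x l) = g l * Lx x l := by
  rw [eval_Mx, Finset.sum_eq_single l]
  · rfl
  · intro i _ hi
    rw [erase_zero x hi, mul_zero]
  · intro h; exact absurd (mem_univ _) h

/-- Vandermonde product -/
noncomputable def Van {n : ℕ} (x : Fin n → ℝ) : ℝ := ∏ i : Fin n, ∏ j ∈ Ioi i, (x j - x i)

theorem van_mul {n : ℕ} (x : Fin n → ℝ) : Matrix.vandermonde x * Mm x = Matrix.diagonal (Lx x) := by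
  ext l i
  rw [Matrix.mul_apply]
  have h : ∑ k, Matrix.vandermonde x l k * Mm x k i = (∏ j ∈ univ.erase i, (X - C (x j))).eval (x l) := by
    rw [eq_lin (erase_degree x i), lin_eval]
    refine sum_congr rfl fun k _ => ?_
    rw [Matrix.vandermonde_apply, mul_comm]
    rfl
  rw [h, Polynomial.eval_prod]
  simp only [Polynomial.eval_sub, Polynomial.eval_X, Polynomial.eval_C]
  by_cases hli : l = i
  · subst hli
    rw [Matrix.diagonal_apply_eq]
    rfl
  · rw [Matrix.diagonal_apply_ne _ hli]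
    exact erase_zero x (Ne.symm hli)

theorem van_pos {n : ℕ} {x : Fin n → ℝ} (hx : StrictMono x) : 0 < Van x :=
  prod_pos fun _ _ => prod_pos fun _ hj => sub_pos.2 (hx (mem_Ioi.1 hj))

theorem prod_Lx {n : ℕ} (x : Fin n → ℝ) : ∏ i, |Lx x i| = |Van x| ^ 2 := by
  have h1 : ∀ i, |Lx x i| = (∏ j ∈ Iio i, |x i - x j|) * ∏ j ∈ Ioi i, |x j - x i| := by
    intro i
    unfold Lx
    rw [Finset.abs_prod]
    have e : (univ.erase i : Finset (Fin n)) = Iio i ∪ Ioi i := by
      ext j
      simp only [mem_erase, mem_univ, and_true, mem_union, mem_Iio, mem_Ioi]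
      exact ⟨fun h => lt_or_gt_of_ne h, fun h => h.elim ne_of_lt ne_of_gt⟩
    rw [e, Finset.prod_union]
    · congr 1
      exact prod_congr rfl fun j _ => abs_sub_comm _ _
    · rw [Finset.disjoint_left]
      intro j hj hj2
      exact lt_asymm (mem_Iio.1 hj) (mem_Ioi.1 hj2)
  simp only [h1]
  rw [Finset.prod_mul_distrib]
  have h2 : ∏ i : Fin n, ∏ j ∈ Iio i, |x i - x j| = ∏ i : Fin n, ∏ j ∈ Ioi i, |x j - x i| := by
    apply Finset.prod_comm'
    intro i j
    simp
  rw [h2, ← sq]
  unfold Van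
  rw [Finset.abs_prod]
  simp only [Finset.abs_prod]

theorem det_Mm {n : ℕ} {x : Fin n → ℝ} (hx : StrictMono x) : |(Mm x).det| = Van x := by
  have h := congrArg Matrix.det (van_mul x)
  rw [Matrix.det_mul, Matrix.det_vandermonde, Matrix.det_diagonal] at h
  have h1 : |Van x| * |(Mm x).det| = |Van x| ^ 2 := by
    rw [← prod_Lx, ← Finset.abs_prod, ← h, abs_mul]
    rfl
  have h2 := van_pos hx
  rw [abs_of_pos h2] at h1
  have h3 : Van x * |(Mm x).det| = Van x * Van x := by rw [h1, sq]
  exact mul_left_cancel₀ h2.ne' h3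

theorem det_Mx {n : ℕ} {x : Fin n → ℝ} (hx : StrictMono x) : |LinearMap.det (Mx x)| = Van x := by
  unfold Mx
  rw [LinearMap.det_toLin', det_Mm hx]

/-! ### uniqueness of interpolation -/

theorem lagr {n : ℕ} {x : Fin n → ℝ} (hx : Function.Injective x) {Q R : ℝ[X]} (hQ : Q.degree < n)
    (hR : R.degree < n) (h : ∀ i, Q.eval (x i) = R.eval (x i)) : Q = R := by
  have h1 : (Q - R).degree < n := (Polynomial.degree_sub_le Q R).trans_lt (max_lt hQ hR)
  have h2 : Q - R = 0 := by
    by_cases h0 : Q - R = 0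
    · exact h0
    · apply Polynomial.eq_zero_of_natDegree_lt_card_of_eval_eq_zero (Q - R) hx
      · intro i
        rw [Polynomial.eval_sub, h i, sub_self]
      · rw [Fintype.card_fin]
        exact (Polynomial.natDegree_lt_iff_degree_lt h0).2 h1
  exact sub_eq_zero.1 h2

theorem lagr_vec {n : ℕ} {x : Fin n → ℝ} (hx : Function.Injective x) {v w : Fin n → ℝ}
    (h : ∀ i, (lin n v).eval (x i) = (lin n w).eval (x i)) : v = w :=
  lin_inj (lagr hx (lin_degree v) (lin_degree w) h)

theorem pol_inj {n : ℕ} {x y : Fin n → ℝ} (hx : StrictMono x) (hy : StrictMono y)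
    (h : pol x = pol y) : x = y := by
  have h1 : ∀ (z : Fin n → ℝ), (pol z).roots = Multiset.map z univ.val := by
    intro z
    have e : pol z = (Multiset.map (fun a => X - C a) (Multiset.map z univ.val)).prod := by
      unfold pol
      rw [Multiset.map_map]
      rfl
    rw [e, Polynomial.roots_multiset_prod_X_sub_C]
  have h2 : Multiset.map x univ.val = Multiset.map y univ.val := by rw [← h1, ← h1, h]
  have h3 : (univ : Finset (Fin n)).image x = univ.image y := by
    ext t
    have := congrArg (fun s => t ∈ s) h2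
    simp only [Multiset.mem_map, eq_iff_iff] at this
    simpa using this
  have h4 : Set.range x = Set.range y := by
    have := congrArg (fun s : Finset ℝ => (s : Set ℝ)) h3
    simpa using this
  exact StrictMono.range_inj hx hy |>.1 h4

theorem Co_inj {n : ℕ} {x y : Fin n → ℝ} (hx : StrictMono x) (hy : StrictMono y)
    (h : Co x = Co y) : x = y := by
  apply pol_inj hx hy
  rw [pol_eq, pol_eq, h]

end Pool.Agent.Y982.DE
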