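import Pool.Agent.Y982.DE.Wt

/-!
# DE-Step: the induction step
-/

set_option autoImplicit false

open scoped BigOperators ENNReal
open Polynomial Finset MeasureTheory

namespace Pool.Agent.Y982.DE

/-- swapping the order of integration over a region -/
theorem swap_set {A B : Type*} [MeasureSpace A] [MeasureSpace B] [SFinite (volume : Measure A)]
    [SFinite (volume : Measure B)] {S : Set A} {T : A → Set B} {S' : Set B} {T' : B → Set A}
    (hS : MeasurableSet S) (hT : ∀ x, MeasurableSet (T x)) (hS' : MeasurableSet S')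
    (hT' : ∀ y, MeasurableSet (T' y)) (hΩ : MeasurableSet {z : A × B | z.1 ∈ S ∧ z.2 ∈ T z.1})
    (hiff : ∀ x y, (x ∈ S ∧ y ∈ T x) ↔ (y ∈ S' ∧ x ∈ T' y)) {h : A → B → ℝ≥0∞}
    (hh : Measurable (Function.uncurry h)) :
    ∫⁻ x in S, ∫⁻ y in T x, h x y = ∫⁻ y in S', ∫⁻ x in T' y, h x y := by
  set Ω : Set (A × B) := {z : A × B | z.1 ∈ S ∧ z.2 ∈ T z.1} with hΩd
  have h1 : ∫⁻ x in S, ∫⁻ y in T x, h x y = ∫⁻ x, ∫⁻ y, Ω.indicator (Function.uncurry h) (x, y) := by
    rw [← lintegral_indicator hS]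
    refine lintegral_congr fun x => ?_
    by_cases hx : x ∈ S
    · rw [Set.indicator_of_mem hx, ← lintegral_indicator (hT x)]
      refine lintegral_congr fun y => ?_
      by_cases hy : y ∈ T x
      · rw [Set.indicator_of_mem hy, Set.indicator_of_mem (show (x, y) ∈ Ω from ⟨hx, hy⟩)]
        rfl
      · rw [Set.indicator_of_notMem hy, Set.indicator_of_notMem (fun h2 : (x, y) ∈ Ω => hy h2.2)]
    · rw [Set.indicator_of_notMem hx]
      symm
      rw [lintegral_eq_zero_iff']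
      · exact Filter.Eventually.of_forall fun y =>
          Set.indicator_of_notMem (fun h2 : (x, y) ∈ Ω => hx h2.1) _
      · exact ((hh.indicator hΩ).comp measurable_prodMk_left).aemeasurable
  have h2 : ∫⁻ y in S', ∫⁻ x in T' y, h x y = ∫⁻ y, ∫⁻ x, Ω.indicator (Function.uncurry h) (x, y) := by
    rw [← lintegral_indicator hS']
    refine lintegral_congr fun y => ?_
    by_cases hy : y ∈ S'
    · rw [Set.indicator_of_mem hy, ← lintegral_indicator (hT' y)]
      refine lintegral_congr fun x => ?_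
      by_cases hx : x ∈ T' y
      · rw [Set.indicator_of_mem hx, Set.indicator_of_mem (show (x, y) ∈ Ω from (hiff x y).2 ⟨hy, hx⟩)]
        rfl
      · rw [Set.indicator_of_notMem hx,
          Set.indicator_of_notMem (fun h2 : (x, y) ∈ Ω => hx ((hiff x y).1 h2).2)]
    · rw [Set.indicator_of_notMem hy]
      symm
      rw [lintegral_eq_zero_iff']
      · exact Filter.Eventually.of_forall fun x =>
          Set.indicator_of_notMem (fun h2 : (x, y) ∈ Ω => hy ((hiff x y).1 h2).1) _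
      · exact ((hh.indicator hΩ).comp measurable_prodMk_right).aemeasurable
  rw [h1, h2]
  exact lintegral_lintegral_swap (hh.indicator hΩ).aemeasurable

theorem rA_nn (s α : ℝ) {n : ℕ} {x : Fin n → ℝ} (hx : x ∈ Wp n) : 0 ≤ rA s α x := by
  have := van_pos hx.1
  have h2 : 0 < ∏ i, x i := prod_pos fun i _ => hx.2 i
  unfold rA
  positivity

theorem rB_nn (s : ℝ) {n : ℕ} {g : Fin n → ℝ} (hg : ∀ i, 0 < g i) : 0 ≤ rB s g := by
  have h2 : 0 < ∏ i, g i := prod_pos fun i _ => hg i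
  unfold rB
  positivity

/-- first step -/
theorem S1 (s α : ℝ) {m : ℕ} {Ψ : (Fin m → ℝ) → (Fin m → ℝ) → ℝ≥0∞}
    (hΨ : Measurable (Function.uncurry Ψ)) :
    ∫⁻ x in Wp m, ∫⁻ g in Pos m, ENNReal.ofReal (rA s α x) * ENNReal.ofReal (rB s g) *
      Ψ x (Co x - Mx x g) =
    ∫⁻ κ in Wp m, ∫⁻ x in {x | (∀ i, 0 < x i) ∧ I1 x κ}, ENNReal.ofReal (r1 s α x κ) *
      Ψ x (Co κ) := by
  have h1 : ∀ x ∈ Wp m, ∫⁻ g in Pos m, ENNReal.ofReal (rA s α x) * ENNReal.ofReal (rB s g) *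
      Ψ x (Co x - Mx x g) = ∫⁻ κ in {κ | I1 x κ}, ENNReal.ofReal (r1 s α x κ) * Ψ x (Co κ) := by
    intro x hx
    have hV := van_pos hx.1
    have hE : 0 < ∏ i, x i := prod_pos fun i _ => hx.2 i
    have h := covA hx.1 (fun k => ENNReal.ofReal (rA s α x) * ENNReal.ofReal (1 / Van x) *
      ENNReal.ofReal (psi s x k) * Ψ x k)
    have e1 : ∀ g ∈ Pos m, ENNReal.ofReal (rA s α x) * ENNReal.ofReal (rB s g) *
        Ψ x (Co x - Mx x g) = ENNReal.ofReal (Van x) * (ENNReal.ofReal (rA s α x) *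
          ENNReal.ofReal (1 / Van x) * ENNReal.ofReal (psi s x (Co x - Mx x g)) *
          Ψ x (Co x - Mx x g)) := by
      intro g hg
      rw [psi_g s hx.1 hg]
      have e2 : ENNReal.ofReal (Van x) * ENNReal.ofReal (1 / Van x) = 1 := by
        rw [← ENNReal.ofReal_mul hV.le, mul_one_div_cancel hV.ne', ENNReal.ofReal_one]
      calc ENNReal.ofReal (rA s α x) * ENNReal.ofReal (rB s g) * Ψ x (Co x - Mx x g)
          = (ENNReal.ofReal (Van x) * ENNReal.ofReal (1 / Van x)) *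
            (ENNReal.ofReal (rA s α x) * ENNReal.ofReal (rB s g) * Ψ x (Co x - Mx x g)) := by
            rw [e2, one_mul]
        _ = _ := by ring
    have e3 : ∀ κ ∈ {κ | I1 x κ}, ENNReal.ofReal (Van κ) * (ENNReal.ofReal (rA s α x) *
          ENNReal.ofReal (1 / Van x) * ENNReal.ofReal (psi s x (Co κ)) * Ψ x (Co κ)) =
        ENNReal.ofReal (r1 s α x κ) * Ψ x (Co κ) := by
      intro κ hκ
      have hVk := van_pos hκ.monok
      have hR := Res_pos1 hκ
      rw [psi_k]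
      have hrA := rA_nn s α hx
      rw [← mul_assoc, ← mul_assoc, ← mul_assoc, ← ENNReal.ofReal_mul hVk.le,
        ← ENNReal.ofReal_mul (by positivity), ← ENNReal.ofReal_mul (by positivity)]
      congr 2
      unfold rA r1
      rw [← id1 (s := s) (E := (∏ i, x i) ^ (s * α - 1)) (K := Van κ) (X := ∑ i, x i)
        (Y := ∑ i, κ i) hV hR (α := α)]
      ring
    rw [setLIntegral_congr_fun meas_Pos e1, h]
    exact setLIntegral_congr_fun (measurable_prodMk_left (x := x) meas_I1) e3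
  rw [setLIntegral_congr_fun meas_Wp h1]
  refine swap_set (T := fun x => {κ | I1 x κ}) (T' := fun κ => {x | (∀ i, 0 < x i) ∧ I1 x κ})
    meas_Wp (fun x => measurable_prodMk_left (x := x) meas_I1) meas_Wp
    (fun κ => meas_Pos.inter (measurable_prodMk_right (y := κ) meas_I1)) ?_ ?_ ?_
  · exact (measurable_fst meas_Wp).inter meas_I1
  · intro x κ
    constructor
    · rintro ⟨hx, hI⟩
      exact ⟨⟨I1.monok hI, fun i => (hx.2 i).trans (hI.1 i)⟩, hx.2, hI⟩
    · rintro ⟨_, hx, hI⟩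
      exact ⟨⟨I1.monox hI, hx⟩, hI⟩
  · exact (r1_meas s α).ennreal_ofReal.mul (hΨ.comp
      (measurable_fst.prodMk (Co_meas.comp measurable_snd)))

/-- second step -/
theorem S2 (s α : ℝ) {m : ℕ} {κ : Fin m → ℝ} (hκ : κ ∈ Wp m)
    {Ψ : (Fin (m + 1) → ℝ) → ℝ≥0∞} (hΨ : Measurable Ψ) :
    ∫⁻ b in Set.Ioi (0 : ℝ), ∫⁻ x in {x | (∀ i, 0 < x i) ∧ I1 x κ},
      ENNReal.ofReal (r1 s α x κ) * ENNReal.ofReal (gd (s * (m + α)) s b) *
        Ψ (sh (Co κ) - b • up (Co x)) =
    ∫⁻ l in {l | (∀ i, 0 < l i) ∧ I2 l κ}, ENNReal.ofReal (r2 s α κ l) * Ψ (Co l) := by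
  have hVk := van_pos hκ.1
  set D : ℝ := Van κ * Real.exp (-(s * ∑ i, κ i)) with hD
  have hDp : 0 < D := by positivity
  have hev : ∀ z : ℝ, Measurable fun p : Fin (m + 1) → ℝ =>
      (X ^ (m + 1) + lin (m + 1) p).eval z := by
    intro z
    simp only [Polynomial.eval_add, lin_eval]
    fun_prop
  have hchi : Measurable fun p => chi s α κ p := by
    unfold chi
    refine Measurable.mul (Measurable.mul (Measurable.pow_const ?_ _)
      (Measurable.pow_const (hev 0).abs _)) ?_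
    · exact Finset.measurable_prod _ fun j _ => (hev _).abs
    · fun_prop
  have h := covB hκ.1 hκ.2 (G := fun p => ENNReal.ofReal D * ENNReal.ofReal (chi s α κ p) * Ψ p)
    ((hchi.ennreal_ofReal.const_mul _).mul hΨ)
  have e1 : ∀ b ∈ Set.Ioi (0 : ℝ), ∫⁻ x in {x | (∀ i, 0 < x i) ∧ I1 x κ},
      ENNReal.ofReal (r1 s α x κ) * ENNReal.ofReal (gd (s * (m + α)) s b) *
        Ψ (sh (Co κ) - b • up (Co x)) = ∫⁻ x in {x | (∀ i, 0 < x i) ∧ I1 x κ},
      ENNReal.ofReal (b ^ m * Van x) * (ENNReal.ofReal D * ENNReal.ofReal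
        (chi s α κ (sh (Co κ) - b • up (Co x))) * Ψ (sh (Co κ) - b • up (Co x))) := by
    intro b hb
    have hb' : 0 < b := hb
    refine setLIntegral_congr_fun (meas_Pos.inter (measurable_prodMk_right (y := κ) meas_I1))
      fun x hx => ?_
    have hx0 : ∀ i, 0 < x i := hx.1
    have hI : I1 x κ := hx.2
    have hV := van_pos hI.monox
    have hR := Res_pos1 hI
    have hE : 0 < ∏ i, x i := prod_pos fun i _ => hx0 i
    have hr1 : 0 ≤ r1 s α x κ := by unfold r1; positivity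
    rw [chi_x s α hb' hx0, ← mul_assoc, ← mul_assoc, ← ENNReal.ofReal_mul hr1,
      ← ENNReal.ofReal_mul (by positivity), ← ENNReal.ofReal_mul (by positivity)]
    congr 2
    unfold r1 gd
    rw [hD]
    exact id2 hb' hR hE
  rw [setLIntegral_congr_fun measurableSet_Ioi e1, h]
  refine setLIntegral_congr_fun (meas_Pos.inter (measurable_prodMk_right (y := κ) meas_I2))
    fun l hl => ?_
  have hl0 : ∀ i, 0 < l i := hl.1
  have hI : I2 l κ := hl.2
  have hV := van_pos hI.mono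
  have hR := Res_pos2 hI
  have hE : 0 < ∏ i, l i := prod_pos fun i _ => hl0 i
  rw [chi_l s α hl0, ← mul_assoc, ← mul_assoc, ← ENNReal.ofReal_mul (by positivity),
    ← ENNReal.ofReal_mul (by positivity)]
  congr 2
  unfold r2
  rw [hD]
  have e3 : Real.exp (-(s * ∑ i, l i)) = Real.exp (-(s * ∑ i, κ i)) *
      Real.exp (-(s * (∑ i, l i - ∑ i, κ i))) := by
    rw [← Real.exp_add]; congr 1; ring
  rw [e3]
  ring

/-- third step -/
theorem S3 (s α : ℝ) {m : ℕ} {l : Fin (m + 1) → ℝ} (hl : l ∈ Wp (m + 1))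
    {Ψ : (Fin (m + 1) → ℝ) → ℝ≥0∞} (hΨ : Measurable Ψ) :
    ∫⁻ c in Set.Ioi (0 : ℝ), ∫⁻ κ in {κ | I2 l κ},
      ENNReal.ofReal (r2 s α κ l) * ENNReal.ofReal (gd (s * (m + 1)) s c) *
        Ψ (c • up (Co κ)) =
    ∫⁻ g in Pos (m + 1), ENNReal.ofReal (rA s α l) * ENNReal.ofReal (rB s g) * Ψ (Mx l g) := by
  have hV := van_pos hl.1
  have hE : 0 < ∏ i, l i := prod_pos fun i _ => hl.2 i
  set D : ℝ := Van l * (∏ i, l i) ^ (s * α - 1) * Real.exp (-(s * ∑ i, l i)) with hD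
  have hDp : 0 < D := by positivity
  have hev : ∀ z : ℝ, Measurable fun p : Fin (m + 1) → ℝ => (lin (m + 1) p).eval z := by
    intro z
    simp only [lin_eval]
    fun_prop
  have hth : Measurable fun q => theta s l q := by
    unfold theta
    refine Measurable.mul (Measurable.pow_const ?_ _) ?_
    · exact Finset.measurable_prod _ fun j _ => (hev _).abs
    · fun_prop
  have h := covC hl.1 (G := fun q => ENNReal.ofReal D * ENNReal.ofReal (theta s l q) * Ψ q)
    ((hth.ennreal_ofReal.const_mul _).mul hΨ)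
  have e1 : ∀ c ∈ Set.Ioi (0 : ℝ), ∫⁻ κ in {κ | I2 l κ},
      ENNReal.ofReal (r2 s α κ l) * ENNReal.ofReal (gd (s * (m + 1)) s c) *
        Ψ (c • up (Co κ)) = ∫⁻ κ in {κ | I2 l κ},
      ENNReal.ofReal (c ^ m * Van κ) * (ENNReal.ofReal D * ENNReal.ofReal
        (theta s l (c • up (Co κ))) * Ψ (c • up (Co κ))) := by
    intro c hc
    have hc' : 0 < c := hc
    refine setLIntegral_congr_fun (measurable_prodMk_left (x := l) meas_I2) fun κ hκ => ?_
    have hI : I2 l κ := hκ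
    have hVk := van_pos hI.monoy
    have hR := Res_pos2 hI
    have hr2 : 0 ≤ r2 s α κ l := by unfold r2; positivity
    rw [theta_k s hc', ← mul_assoc, ← mul_assoc, ← ENNReal.ofReal_mul hr2,
      ← ENNReal.ofReal_mul (by positivity), ← ENNReal.ofReal_mul (by positivity)]
    congr 2
    unfold r2 gd
    rw [hD]
    exact id3 hc' hR
  rw [setLIntegral_congr_fun measurableSet_Ioi e1, h]
  refine setLIntegral_congr_fun meas_Pos fun g hg => ?_
  have hg' : ∀ i, 0 < g i := hg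
  have hP : 0 < ∏ i, g i := prod_pos fun i _ => hg' i
  rw [theta_g s hl.1 hg', ← mul_assoc, ← mul_assoc, ← ENNReal.ofReal_mul (by positivity),
    ← ENNReal.ofReal_mul (by positivity), ← ENNReal.ofReal_mul (rA_nn s α hl)]
  congr 2
  unfold rA rB
  rw [hD]
  exact id4 hV hP

/-- the representation of the law of the state -/
def Rep (s α : ℝ) (n : ℕ) (μ : Measure ((Fin n → ℝ) × (Fin n → ℝ))) : Prop :=
  ∃ Z : ℝ≥0∞, Z ≠ 0 ∧ Z ≠ ∞ ∧ ∀ F : (Fin n → ℝ) × (Fin n → ℝ) → ℝ≥0∞, Measurable F →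
    ∫⁻ z, F z ∂μ = Z * ∫⁻ x in Wp n, ∫⁻ g in Pos n, ENNReal.ofReal (rA s α x) *
      ENNReal.ofReal (rB s g) * F (Co x, Mx x g)

/-- the recursion map -/
def Phi {n : ℕ} (z : ((Fin n → ℝ) × (Fin n → ℝ)) × (ℝ × ℝ)) :
    (Fin (n + 1) → ℝ) × (Fin (n + 1) → ℝ) :=
  (sh (z.1.1 - z.1.2) - z.2.1 • up z.1.1, z.2.2 • up (z.1.1 - z.1.2))

theorem Phi_meas {n : ℕ} : Measurable (Phi (n := n)) := by
  unfold Phi
  have h1 : Measurable fun z : ((Fin n → ℝ) × (Fin n → ℝ)) × (ℝ × ℝ) => z.1.1 - z.1.2 :=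
    (measurable_fst.comp measurable_fst).sub (measurable_snd.comp measurable_fst)
  have h2 : Measurable fun z : ((Fin n → ℝ) × (Fin n → ℝ)) × (ℝ × ℝ) => z.1.1 :=
    measurable_fst.comp measurable_fst
  have h3 : Measurable fun z : ((Fin n → ℝ) × (Fin n → ℝ)) × (ℝ × ℝ) => z.2.1 :=
    measurable_fst.comp measurable_snd
  have h4 : Measurable fun z : ((Fin n → ℝ) × (Fin n → ℝ)) × (ℝ × ℝ) => z.2.2 :=
    measurable_snd.comp measurable_snd
  exact ((sh_meas.comp h1).sub (h3.smul (up_meas.comp h2))).prodMk (h4.smul (up_meas.comp h1))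

/-- gamma integrals -/
theorem lint_gamma {k r : ℝ} (hk : 0 < k) (hr : 0 < r) {f : ℝ → ℝ≥0∞} (hf : Measurable f) :
    ∫⁻ b, f b ∂(ProbabilityTheory.gammaMeasure k r) =
      ENNReal.ofReal (r ^ k / Real.Gamma k) * ∫⁻ b in Set.Ioi (0 : ℝ), ENNReal.ofReal (gd k r b) * f b := by
  have hG := Real.Gamma_pos_of_pos hk
  have hm : Measurable (ProbabilityTheory.gammaPDF k r) := by
    unfold ProbabilityTheory.gammaPDF
    exact (ProbabilityTheory.measurable_gammaPDFReal k r).ennreal_ofReal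
  unfold ProbabilityTheory.gammaMeasure
  have hm2 : Measurable fun b => ENNReal.ofReal (gd k r b) * f b :=
    (gd_meas k r).ennreal_ofReal.mul hf
  rw [lintegral_withDensity_eq_lintegral_mul _ hm hf, ← lintegral_const_mul _ hm2,
    ← lintegral_indicator measurableSet_Ioi]
  have h0 : ({0} : Set ℝ)ᶜ ∈ ae (volume : Measure ℝ) :=
    compl_mem_ae_iff.2 (measure_singleton (0 : ℝ))
  refine lintegral_congr_ae ?_
  filter_upwards [h0] with b hb
  have hb' : b ≠ 0 := hb
  simp only [Pi.mul_apply]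
  rcases lt_or_gt_of_ne hb' with h | h
  · rw [ProbabilityTheory.gammaPDF_of_neg h, zero_mul, Set.indicator_of_notMem (by simpa using h.le)]
  · rw [ProbabilityTheory.gammaPDF_of_nonneg h.le, Set.indicator_of_mem (by exact h), ← mul_assoc,
      ← ENNReal.ofReal_mul (by positivity)]
    congr 2
    unfold gd
    ring

theorem lint_swap3 {A B C : Type*} [MeasurableSpace A] [MeasurableSpace B] [MeasurableSpace C]
    {μ : Measure A} {ν : Measure B} {ρ : Measure C} [SFinite μ] [SFinite ν] [SFinite ρ]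
    {h : A → B → C → ℝ≥0∞} (hh : Measurable fun z : A × B × C => h z.1 z.2.1 z.2.2) :
    ∫⁻ a, ∫⁻ b, ∫⁻ c, h a b c ∂ρ ∂ν ∂μ = ∫⁻ c, ∫⁻ b, ∫⁻ a, h a b c ∂μ ∂ν ∂ρ := by
  have e1 : ∀ a, ∫⁻ b, ∫⁻ c, h a b c ∂ρ ∂ν = ∫⁻ c, ∫⁻ b, h a b c ∂ν ∂ρ := by
    intro a
    refine lintegral_lintegral_swap (Measurable.aemeasurable ?_)
    exact hh.comp (measurable_const.prodMk (measurable_fst.prodMk measurable_snd))
  simp only [e1]
  have e2 : ∫⁻ a, ∫⁻ c, ∫⁻ b, h a b c ∂ν ∂ρ ∂μ = ∫⁻ c, ∫⁻ a, ∫⁻ b, h a b c ∂ν ∂μ ∂ρ := by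
    refine lintegral_lintegral_swap (Measurable.aemeasurable ?_)
    have : Measurable fun z : (A × C) × B => h z.1.1 z.2 z.1.2 :=
      hh.comp ((measurable_fst.comp measurable_fst).prodMk
        (measurable_snd.prodMk (measurable_snd.comp measurable_fst)))
    exact this.lintegral_prod_right'
  rw [e2]
  refine lintegral_congr fun c => ?_
  refine lintegral_lintegral_swap (Measurable.aemeasurable ?_)
  exact hh.comp (measurable_fst.prodMk (measurable_snd.prodMk measurable_const))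

/-- the induction step -/
theorem rep_step {s α : ℝ} (hs : 0 < s) (hα : 0 < α) {n : ℕ}
    {μ : Measure ((Fin n → ℝ) × (Fin n → ℝ))} [SFinite μ] (h : Rep s α n μ) :
    Rep s α (n + 1) ((μ.prod ((ProbabilityTheory.gammaMeasure (s * (n + α)) s).prod
      (ProbabilityTheory.gammaMeasure (s * (n + 1)) s))).map Phi) := by
  obtain ⟨Z, hZ0, hZi, hZ⟩ := h
  have hkb : 0 < s * (n + α) := by positivity
  have hkc : 0 < s * ((n : ℝ) + 1) := by positivity
  haveI := ProbabilityTheory.isProbabilityMeasure_gammaMeasure hkb hs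
  haveI := ProbabilityTheory.isProbabilityMeasure_gammaMeasure hkc hs
  set cb : ℝ≥0∞ := ENNReal.ofReal (s ^ (s * (n + α)) / Real.Gamma (s * (n + α))) with hcb
  set cc : ℝ≥0∞ := ENNReal.ofReal (s ^ (s * ((n : ℝ) + 1)) / Real.Gamma (s * ((n : ℝ) + 1))) with hcc
  have hcb0 : cb ≠ 0 := by
    rw [hcb]
    have := Real.Gamma_pos_of_pos hkb
    exact (ENNReal.ofReal_pos.2 (by positivity)).ne'
  have hcc0 : cc ≠ 0 := by
    rw [hcc]
    have := Real.Gamma_pos_of_pos hkc
    exact (ENNReal.ofReal_pos.2 (by positivity)).ne'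
  refine ⟨Z * (cb * cc), mul_ne_zero hZ0 (mul_ne_zero hcb0 hcc0),
    ENNReal.mul_ne_top hZi (ENNReal.mul_ne_top ENNReal.ofReal_ne_top ENNReal.ofReal_ne_top), ?_⟩
  intro F hF
  -- the function of the old state
  set gb : ℝ → ℝ≥0∞ := fun b => ENNReal.ofReal (gd (s * (n + α)) s b) with hgb
  set gc : ℝ → ℝ≥0∞ := fun c => ENNReal.ofReal (gd (s * ((n : ℝ) + 1)) s c) with hgc
  have hgbm : Measurable gb := (gd_meas _ _).ennreal_ofReal
  have hgcm : Measurable gc := (gd_meas _ _).ennreal_ofReal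
  have hFP : Measurable fun z : ((Fin n → ℝ) × (Fin n → ℝ)) × (ℝ × ℝ) => F (Phi z) := hF.comp Phi_meas
  have step1 : ∫⁻ z, F z ∂((μ.prod ((ProbabilityTheory.gammaMeasure (s * (n + α)) s).prod
      (ProbabilityTheory.gammaMeasure (s * (n + 1)) s))).map Phi) =
      ∫⁻ z, ((cb * cc) * ∫⁻ b in Set.Ioi (0 : ℝ), ∫⁻ c in Set.Ioi (0 : ℝ), gb b * gc c *
        F (Phi (z, (b, c)))) ∂μ := by
    rw [lintegral_map hF Phi_meas, lintegral_prod _ hFP.aemeasurable]
    refine lintegral_congr fun z => ?_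
    have hz : Measurable fun w : ℝ × ℝ => F (Phi (z, w)) := hFP.comp measurable_prodMk_left
    rw [lintegral_prod _ hz.aemeasurable]
    have e1 : ∀ b, ∫⁻ c, F (Phi (z, (b, c))) ∂(ProbabilityTheory.gammaMeasure (s * (n + 1)) s) =
        cc * ∫⁻ c in Set.Ioi (0 : ℝ), gc c * F (Phi (z, (b, c))) := fun b =>
      lint_gamma hkc hs (hz.comp measurable_prodMk_left)
    simp only [e1]
    have hm1 : Measurable fun b => ∫⁻ c in Set.Ioi (0 : ℝ), gc c * F (Phi (z, (b, c))) := by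
      have : Measurable fun w : ℝ × ℝ => gc w.2 * F (Phi (z, w)) :=
        (hgcm.comp measurable_snd).mul hz
      exact this.lintegral_prod_right'
    rw [lint_gamma hkb hs (hm1.const_mul cc)]
    have e2 : ∀ b, ENNReal.ofReal (gd (s * (n + α)) s b) *
        (cc * ∫⁻ c in Set.Ioi (0 : ℝ), gc c * F (Phi (z, (b, c)))) =
        cc * ∫⁻ c in Set.Ioi (0 : ℝ), gb b * gc c * F (Phi (z, (b, c))) := by
      intro b
      rw [mul_left_comm]
      congr 1
      rw [← lintegral_const_mul]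
      · refine lintegral_congr fun c => ?_
        rw [← mul_assoc]
      · exact hgcm.mul (hz.comp measurable_prodMk_left)
    simp only [e2]
    rw [lintegral_const_mul, ← mul_assoc]
    have : Measurable fun w : ℝ × ℝ => gb w.1 * gc w.2 * F (Phi (z, w)) :=
      ((hgbm.comp measurable_fst).mul (hgcm.comp measurable_snd)).mul hz
    exact this.lintegral_prod_right'
  rw [step1]
  -- measurability of the inner function
  set J : (Fin n → ℝ) → (Fin n → ℝ) → ℝ≥0∞ := fun x k =>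
    ∫⁻ b in Set.Ioi (0 : ℝ), ∫⁻ c in Set.Ioi (0 : ℝ), gb b * gc c *
      F (sh k - b • up x, c • up k) with hJ
  have hbase : Measurable fun z : (((Fin n → ℝ) × (Fin n → ℝ)) × ℝ) × ℝ =>
      gb z.1.2 * gc z.2 * F (sh z.1.1.2 - z.1.2 • up z.1.1.1, z.2 • up z.1.1.2) := by
    have h1 : Measurable fun z : (((Fin n → ℝ) × (Fin n → ℝ)) × ℝ) × ℝ => z.1.1.2 := by fun_prop
    have h2 : Measurable fun z : (((Fin n → ℝ) × (Fin n → ℝ)) × ℝ) × ℝ => z.1.1.1 := by fun_prop
    have h3 : Measurable fun z : (((Fin n → ℝ) × (Fin n → ℝ)) × ℝ) × ℝ => z.1.2 := by fun_prop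
    have h4 : Measurable fun z : (((Fin n → ℝ) × (Fin n → ℝ)) × ℝ) × ℝ => z.2 := by fun_prop
    exact ((hgbm.comp h3).mul (hgcm.comp h4)).mul (hF.comp
      (((sh_meas.comp h1).sub (h3.smul (up_meas.comp h2))).prodMk (h4.smul (up_meas.comp h1))))
  have hJm : Measurable (Function.uncurry J) := by
    have h1 : Measurable fun z : ((Fin n → ℝ) × (Fin n → ℝ)) × ℝ =>
        ∫⁻ c in Set.Ioi (0 : ℝ), gb z.2 * gc c * F (sh z.1.2 - z.2 • up z.1.1, c • up z.1.2) :=
      hbase.lintegral_prod_right'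
    exact h1.lintegral_prod_right'
  have hJe : ∀ z : (Fin n → ℝ) × (Fin n → ℝ), ∫⁻ b in Set.Ioi (0 : ℝ), ∫⁻ c in Set.Ioi (0 : ℝ),
      gb b * gc c * F (Phi (z, (b, c))) = J z.1 (z.1 - z.2) := fun z => rfl
  simp only [hJe]
  have hJ2 : Measurable fun z : (Fin n → ℝ) × (Fin n → ℝ) => J z.1 (z.1 - z.2) :=
    hJm.comp (measurable_fst.prodMk (measurable_fst.sub measurable_snd))
  rw [lintegral_const_mul _ hJ2, hZ _ hJ2]
  have hΨ : Measurable (Function.uncurry fun (x k : Fin n → ℝ) => J (Co x) k) :=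
    hJm.comp ((Co_meas.comp measurable_fst).prodMk measurable_snd)
  have h1 := S1 s α hΨ
  rw [h1]
  -- second step
  have h2 : ∀ κ ∈ Wp n, ∫⁻ x in {x | (∀ i, 0 < x i) ∧ I1 x κ}, ENNReal.ofReal (r1 s α x κ) *
      J (Co x) (Co κ) = ∫⁻ c in Set.Ioi (0 : ℝ), ∫⁻ l in {l | (∀ i, 0 < l i) ∧ I2 l κ},
        gc c * (ENNReal.ofReal (r2 s α κ l) * F (Co l, c • up (Co κ))) := by
    intro κ hκ
    have hm3 : Measurable fun z : (Fin n → ℝ) × ℝ × ℝ => ENNReal.ofReal (r1 s α z.1 κ) *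
        (gb z.2.1 * gc z.2.2 * F (sh (Co κ) - z.2.1 • up (Co z.1), z.2.2 • up (Co κ))) := by
      have h1 : Measurable fun z : (Fin n → ℝ) × ℝ × ℝ => ENNReal.ofReal (r1 s α z.1 κ) :=
        ((r1_meas s α).comp (measurable_fst.prodMk measurable_const)).ennreal_ofReal
      have h3 : Measurable fun z : (Fin n → ℝ) × ℝ × ℝ => z.2.1 := by fun_prop
      have h4 : Measurable fun z : (Fin n → ℝ) × ℝ × ℝ => z.2.2 := by fun_prop
      have h5 : Measurable fun z : (Fin n → ℝ) × ℝ × ℝ => Co z.1 := Co_meas.comp measurable_fst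
      exact h1.mul (((hgbm.comp h3).mul (hgcm.comp h4)).mul (hF.comp
        ((measurable_const.sub (h3.smul (up_meas.comp h5))).prodMk
          (h4.smul (measurable_const (a := up (Co κ)))))))
    have e1 : ∫⁻ x in {x | (∀ i, 0 < x i) ∧ I1 x κ}, ENNReal.ofReal (r1 s α x κ) *
        J (Co x) (Co κ) = ∫⁻ x in {x | (∀ i, 0 < x i) ∧ I1 x κ}, ∫⁻ b in Set.Ioi (0 : ℝ),
          ∫⁻ c in Set.Ioi (0 : ℝ), ENNReal.ofReal (r1 s α x κ) *
        (gb b * gc c * F (sh (Co κ) - b • up (Co x), c • up (Co κ))) := by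
      refine lintegral_congr fun x => ?_
      rw [hJ]
      simp only
      have hmx : Measurable fun w : ℝ × ℝ =>
          gb w.1 * gc w.2 * F (sh (Co κ) - w.1 • up (Co x), w.2 • up (Co κ)) := by
        have h3 : Measurable fun z : ℝ × ℝ => z.1 := by fun_prop
        have h4 : Measurable fun z : ℝ × ℝ => z.2 := by fun_prop
        exact ((hgbm.comp h3).mul (hgcm.comp h4)).mul (hF.comp
          ((measurable_const.sub (h3.smul (measurable_const (a := up (Co x))))).prodMk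
            (h4.smul (measurable_const (a := up (Co κ))))))
      rw [← lintegral_const_mul _ hmx.lintegral_prod_right']
      refine lintegral_congr fun b => ?_
      rw [← lintegral_const_mul]
      exact hmx.comp measurable_prodMk_left
    rw [e1, lint_swap3 hm3]
    refine setLIntegral_congr_fun measurableSet_Ioi fun c _ => ?_
    have hΨc : Measurable fun p : Fin (n + 1) → ℝ => gc c * F (p, c • up (Co κ)) :=
      (hF.comp (measurable_id.prodMk measurable_const)).const_mul _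
    have h := S2 s α hκ hΨc
    have e2 : ∀ b : ℝ, ∀ x : Fin n → ℝ, ENNReal.ofReal (r1 s α x κ) *
        (gb b * gc c * F (sh (Co κ) - b • up (Co x), c • up (Co κ))) =
        ENNReal.ofReal (r1 s α x κ) * ENNReal.ofReal (gd (s * (n + α)) s b) *
        (gc c * F (sh (Co κ) - b • up (Co x), c • up (Co κ))) := by
      intro b x
      rw [hgb]
      ring
    simp only [e2]
    rw [h]
    refine lintegral_congr fun l => ?_
    ring
  rw [setLIntegral_congr_fun meas_Wp h2]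
  -- exchange c and l
  have hm4 : Measurable fun z : ((Fin n → ℝ) × (Fin (n + 1) → ℝ)) × ℝ =>
      gc z.2 * (ENNReal.ofReal (r2 s α z.1.1 z.1.2) * F (Co z.1.2, z.2 • up (Co z.1.1))) := by
    have h1 : Measurable fun z : ((Fin n → ℝ) × (Fin (n + 1) → ℝ)) × ℝ => Co z.1.1 :=
      Co_meas.comp (measurable_fst.comp measurable_fst)
    have h2 : Measurable fun z : ((Fin n → ℝ) × (Fin (n + 1) → ℝ)) × ℝ => Co z.1.2 :=
      Co_meas.comp (measurable_snd.comp measurable_fst)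
    exact (hgcm.comp measurable_snd).mul ((((r2_meas s α).comp measurable_fst).ennreal_ofReal).mul
      (hF.comp (h2.prodMk (measurable_snd.smul (up_meas.comp h1)))))
  have h3 : ∀ κ : Fin n → ℝ, ∫⁻ c in Set.Ioi (0 : ℝ), ∫⁻ l in {l | (∀ i, 0 < l i) ∧ I2 l κ},
        gc c * (ENNReal.ofReal (r2 s α κ l) * F (Co l, c • up (Co κ))) =
      ∫⁻ l in {l | (∀ i, 0 < l i) ∧ I2 l κ}, ∫⁻ c in Set.Ioi (0 : ℝ),
        gc c * (ENNReal.ofReal (r2 s α κ l) * F (Co l, c • up (Co κ))) := by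
    intro κ
    refine lintegral_lintegral_swap (Measurable.aemeasurable ?_)
    exact hm4.comp ((measurable_const.prodMk measurable_snd).prodMk measurable_fst)
  simp only [h3]
  have h4 : (∫⁻ κ in Wp n, ∫⁻ l in {l | (∀ i, 0 < l i) ∧ I2 l κ}, ∫⁻ c in Set.Ioi (0 : ℝ),
        gc c * (ENNReal.ofReal (r2 s α κ l) * F (Co l, c • up (Co κ)))) =
      ∫⁻ l in Wp (n + 1), ∫⁻ κ in {κ | I2 l κ}, ∫⁻ c in Set.Ioi (0 : ℝ),
        gc c * (ENNReal.ofReal (r2 s α κ l) * F (Co l, c • up (Co κ))) := by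
    refine swap_set (h := fun (κ : Fin n → ℝ) (l : Fin (n + 1) → ℝ) => ∫⁻ c in Set.Ioi (0 : ℝ),
        gc c * (ENNReal.ofReal (r2 s α κ l) * F (Co l, c • up (Co κ))))
      (S' := Wp (n + 1)) (T := fun κ => {l | (∀ i, 0 < l i) ∧ I2 l κ})
      (T' := fun l => {κ | I2 l κ}) meas_Wp
      (fun κ => meas_Pos.inter (measurable_prodMk_right (y := κ) meas_I2)) meas_Wp
      (fun l => measurable_prodMk_left (x := l) meas_I2) ?_ ?_ hm4.lintegral_prod_right'
    · exact (measurable_fst meas_Wp).inter ((measurable_snd meas_Pos).inter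
        (measurable_swap meas_I2))
    · intro κ l
      constructor
      · rintro ⟨_, hl0, hI⟩
        exact ⟨⟨I2.mono hI, hl0⟩, hI⟩
      · rintro ⟨hl, hI⟩
        have hI' : I2 l κ := hI
        exact ⟨⟨hI'.monoy, fun i => (hl.2 _).trans (hI' i).1⟩, hl.2, hI'⟩
  have h5 : ∀ l ∈ Wp (n + 1), (∫⁻ κ in {κ | I2 l κ}, ∫⁻ c in Set.Ioi (0 : ℝ),
        gc c * (ENNReal.ofReal (r2 s α κ l) * F (Co l, c • up (Co κ)))) =
      ∫⁻ g in Pos (n + 1), ENNReal.ofReal (rA s α l) * ENNReal.ofReal (rB s g) *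
        F (Co l, Mx l g) := by
    intro l hl
    have hm5 : Measurable fun z : (Fin n → ℝ) × ℝ =>
        gc z.2 * (ENNReal.ofReal (r2 s α z.1 l) * F (Co l, z.2 • up (Co z.1))) :=
      hm4.comp ((measurable_fst.prodMk measurable_const).prodMk measurable_snd)
    have e4 : ∫⁻ κ in {κ | I2 l κ}, ∫⁻ c in Set.Ioi (0 : ℝ),
        gc c * (ENNReal.ofReal (r2 s α κ l) * F (Co l, c • up (Co κ))) =
        ∫⁻ c in Set.Ioi (0 : ℝ), ∫⁻ κ in {κ | I2 l κ},
        gc c * (ENNReal.ofReal (r2 s α κ l) * F (Co l, c • up (Co κ))) :=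
      lintegral_lintegral_swap hm5.aemeasurable
    rw [e4]
    have hΨl : Measurable fun q : Fin (n + 1) → ℝ => F (Co l, q) :=
      hF.comp (measurable_const.prodMk measurable_id)
    rw [← S3 s α hl hΨl]
    refine lintegral_congr fun c => lintegral_congr fun κ => ?_
    rw [hgc]
    ring
  rw [h4, setLIntegral_congr_fun meas_Wp h5]
  ring

end Pool.Agent.Y982.DE
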