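import Pool.Agent.Y982.DE.Cov

/-!
# DE-Wt: the weights
-/

set_option autoImplicit false

open scoped BigOperators ENNReal
open Polynomial Finset MeasureTheory

namespace Pool.Agent.Y982.DE

/-! ### traces -/

theorem Co_last {m : ℕ} (l : Fin (m + 1) → ℝ) : Co l (Fin.last m) = -∑ i, l i := by
  have h := Polynomial.prod_X_sub_C_coeff_card_pred (univ : Finset (Fin (m + 1))) l (by simp)
  rw [Finset.card_univ, Fintype.card_fin, Nat.add_sub_cancel] at h
  exact h

theorem Mx_last {m : ℕ} (l g : Fin (m + 1) → ℝ) : Mx l g (Fin.last m) = ∑ i, g i := by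
  unfold Mx
  rw [Matrix.toLin'_apply, Matrix.mulVec, dotProduct]
  refine sum_congr rfl fun i _ => ?_
  have h1 : (∏ j ∈ univ.erase i, (X - C (l j))).Monic :=
    Polynomial.monic_prod_of_monic _ _ fun i _ => Polynomial.monic_X_sub_C _
  have h2 : (∏ j ∈ univ.erase i, (X - C (l j))).natDegree = m := by
    rw [Polynomial.natDegree_prod_of_monic _ _ fun i _ => Polynomial.monic_X_sub_C _]
    simp [Finset.card_erase_of_mem]
  have h3 : Mm l (Fin.last m) i = 1 := by
    unfold Mm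
    have := h1
    rw [Polynomial.Monic, Polynomial.leadingCoeff, h2] at this
    exact this
  rw [h3, one_mul]

theorem sh_last {m : ℕ} (v : Fin (m + 1) → ℝ) : sh v (Fin.last (m + 1)) = v (Fin.last m) := by
  unfold sh
  rw [← Fin.succ_last, Fin.cons_succ]

theorem sh_Co_last {m : ℕ} (x : Fin m → ℝ) : sh (Co x) (Fin.last m) = -∑ i, x i := by
  cases m with
  | zero => simp [sh]
  | succ m => rw [sh_last, Co_last]

theorem sh_Mx_last {m : ℕ} (x g : Fin m → ℝ) : sh (Mx x g) (Fin.last m) = ∑ i, g i := by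
  cases m with
  | zero => simp [sh]
  | succ m => rw [sh_last, Mx_last]

theorem sh_sub {m : ℕ} (v w : Fin m → ℝ) : sh (v - w) = sh v - sh w := by
  funext i
  unfold sh
  induction i using Fin.cases with
  | zero => simp
  | succ i => simp

theorem up_last {m : ℕ} (v : Fin m → ℝ) : up v (Fin.last m) = 1 := by
  unfold up
  rw [Fin.snoc_last]

/-! ### the resultant -/

noncomputable def Res {m k : ℕ} (x : Fin m → ℝ) (y : Fin k → ℝ) : ℝ := ∏ i, ∏ j, |x i - y j|

theorem Res_pos1 {m : ℕ} {x k : Fin m → ℝ} (h : I1 x k) : 0 < Res x k := by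
  unfold Res
  refine prod_pos fun i _ => ?_
  rw [← Finset.abs_prod]
  apply abs_pos.2
  intro h0
  have := sign_I1 h i
  rw [h0, mul_zero] at this
  exact lt_irrefl _ this

theorem Res_pos2 {m : ℕ} {l : Fin (m + 1) → ℝ} {k : Fin m → ℝ} (h : I2 l k) : 0 < Res l k := by
  unfold Res
  refine prod_pos fun i _ => ?_
  rw [← Finset.abs_prod]
  apply abs_pos.2
  intro h0
  have := sign_I2 h i
  rw [h0, mul_zero] at this
  exact lt_irrefl _ this

theorem Res_symm {m k : ℕ} (x : Fin m → ℝ) (y : Fin k → ℝ) :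
    ∏ j, |∏ i, (y j - x i)| = Res x y := by
  unfold Res
  rw [Finset.prod_comm]
  refine prod_congr rfl fun j _ => ?_
  rw [Finset.abs_prod]
  exact prod_congr rfl fun i _ => abs_sub_comm _ _

theorem Res_abs {m k : ℕ} (x : Fin m → ℝ) (y : Fin k → ℝ) :
    ∏ i, |∏ j, (x i - y j)| = Res x y := by
  unfold Res
  exact prod_congr rfl fun i _ => Finset.abs_prod _ _

theorem Res_cont {m k : ℕ} : Continuous fun z : (Fin m → ℝ) × (Fin k → ℝ) => Res z.1 z.2 := by
  unfold Res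
  fun_prop

/-! ### weights -/

/-- weight of the eigenvalues -/
noncomputable def rA (s α : ℝ) {n : ℕ} (x : Fin n → ℝ) : ℝ :=
  Van x ^ (2 * s) * (∏ i, x i) ^ (s * α - 1) * Real.exp (-(s * ∑ i, x i))

/-- weight of the spectral weights -/
noncomputable def rB (s : ℝ) {n : ℕ} (g : Fin n → ℝ) : ℝ :=
  (∏ i, g i) ^ (s - 1) * Real.exp (-(s * ∑ i, g i))

noncomputable def r1 (s α : ℝ) {n : ℕ} (x k : Fin n → ℝ) : ℝ :=
  Van x * Van k * Res x k ^ (s - 1) * (∏ i, x i) ^ (s * α - 1) * Real.exp (-(s * ∑ i, k i))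

noncomputable def r2 (s α : ℝ) {n : ℕ} (k : Fin n → ℝ) (l : Fin (n + 1) → ℝ) : ℝ :=
  Van k * Van l * Res l k ^ (s - 1) * (∏ i, l i) ^ (s * α - 1) * Real.exp (-(s * ∑ i, l i))

/-- unnormalised gamma density -/
noncomputable def gd (k r b : ℝ) : ℝ := b ^ (k - 1) * Real.exp (-(r * b))

theorem gd_meas (k r : ℝ) : Measurable (gd k r) := by
  unfold gd
  fun_prop

theorem r1_meas (s α : ℝ) {n : ℕ} : Measurable fun z : (Fin n → ℝ) × (Fin n → ℝ) => r1 s α z.1 z.2 := by
  have h1 : Measurable fun z : (Fin n → ℝ) × (Fin n → ℝ) => Van z.1 := Van_cont.measurable.comp measurable_fst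
  have h2 : Measurable fun z : (Fin n → ℝ) × (Fin n → ℝ) => Van z.2 := Van_cont.measurable.comp measurable_snd
  have h3 : Measurable fun z : (Fin n → ℝ) × (Fin n → ℝ) => Res z.1 z.2 := Res_cont.measurable
  have h4 : Measurable fun z : (Fin n → ℝ) × (Fin n → ℝ) => ∏ i, z.1 i := by fun_prop
  have h5 : Measurable fun z : (Fin n → ℝ) × (Fin n → ℝ) => ∑ i, z.2 i := by fun_prop
  unfold r1
  exact (((h1.mul h2).mul (h3.pow_const _)).mul (h4.pow_const _)).mul
    ((h5.const_mul s).neg.exp)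

theorem r2_meas (s α : ℝ) {n : ℕ} :
    Measurable fun z : (Fin n → ℝ) × (Fin (n + 1) → ℝ) => r2 s α z.1 z.2 := by
  have h1 : Measurable fun z : (Fin n → ℝ) × (Fin (n + 1) → ℝ) => Van z.1 := Van_cont.measurable.comp measurable_fst
  have h2 : Measurable fun z : (Fin n → ℝ) × (Fin (n + 1) → ℝ) => Van z.2 := Van_cont.measurable.comp measurable_snd
  have h3 : Measurable fun z : (Fin n → ℝ) × (Fin (n + 1) → ℝ) => Res z.2 z.1 :=
    (Res_cont (m := n + 1) (k := n)).measurable.comp measurable_swap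
  have h4 : Measurable fun z : (Fin n → ℝ) × (Fin (n + 1) → ℝ) => ∏ i, z.2 i := by fun_prop
  have h5 : Measurable fun z : (Fin n → ℝ) × (Fin (n + 1) → ℝ) => ∑ i, z.2 i := by fun_prop
  unfold r2
  exact (((h1.mul h2).mul (h3.pow_const _)).mul (h4.pow_const _)).mul
    ((h5.const_mul s).neg.exp)

theorem rA_meas (s α : ℝ) {n : ℕ} : Measurable fun x : Fin n → ℝ => rA s α x := by
  have h1 : Measurable fun x : Fin n → ℝ => Van x := Van_cont.measurable
  have h4 : Measurable fun x : Fin n → ℝ => ∏ i, x i := by fun_prop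
  have h5 : Measurable fun x : Fin n → ℝ => ∑ i, x i := by fun_prop
  unfold rA
  exact ((h1.pow_const _).mul (h4.pow_const _)).mul ((h5.const_mul s).neg.exp)

theorem rB_meas (s : ℝ) {n : ℕ} : Measurable fun x : Fin n → ℝ => rB s x := by
  have h4 : Measurable fun x : Fin n → ℝ => ∏ i, x i := by fun_prop
  have h5 : Measurable fun x : Fin n → ℝ => ∑ i, x i := by fun_prop
  unfold rB
  exact (h4.pow_const _).mul ((h5.const_mul s).neg.exp)

/-! ### the auxiliary functions of the coefficient vectors -/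

/-- weight of `g` as a function of the coefficients `k = Co x - Mx x g` -/
noncomputable def psi (s : ℝ) {m : ℕ} (x k : Fin m → ℝ) : ℝ :=
  ((∏ i, |(X ^ m + lin m k).eval (x i)|) / Van x ^ 2) ^ (s - 1) *
    Real.exp (-(s * (-(sh k (Fin.last m)) - ∑ i, x i)))

theorem psi_g (s : ℝ) {m : ℕ} {x g : Fin m → ℝ} (hx : StrictMono x) (hg : ∀ i, 0 < g i) :
    psi s x (Co x - Mx x g) = rB s g := by
  have hV := van_pos hx
  have h1 : ∀ i, (X ^ m + lin m (Co x - Mx x g)).eval (x i) = -(g i * Lx x i) := by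
    intro i
    have : X ^ m + lin m (Co x - Mx x g) = pol x - lin m (Mx x g) := by
      rw [map_sub, pol_eq]; ring
    rw [this, Polynomial.eval_sub, eval_Mx_node, pol_eval,
      Finset.prod_eq_zero (mem_univ i) (sub_self _), zero_sub]
  have h2 : ∏ i, |(X ^ m + lin m (Co x - Mx x g)).eval (x i)| = (∏ i, g i) * Van x ^ 2 := by
    simp only [h1, abs_neg, abs_mul]
    rw [Finset.prod_mul_distrib, prod_Lx, abs_of_pos hV]
    congr 1
    exact prod_congr rfl fun i _ => abs_of_pos (hg i)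
  unfold psi rB
  rw [h2, mul_div_cancel_right₀ _ (pow_ne_zero 2 hV.ne'), sh_sub, Pi.sub_apply, sh_Co_last, sh_Mx_last]
  congr 3
  ring

theorem psi_k (s : ℝ) {m : ℕ} (x κ : Fin m → ℝ) :
    psi s x (Co κ) = (Res x κ / Van x ^ 2) ^ (s - 1) * Real.exp (-(s * (∑ i, κ i - ∑ i, x i))) := by
  unfold psi
  rw [← pol_eq, sh_Co_last]
  simp only [pol_eval]
  rw [Res_abs, neg_neg]

theorem id1 {s α V R E K X Y : ℝ} (hV : 0 < V) (hR : 0 < R) :
    V ^ (2 * s) * E * Real.exp (-(s * X)) * (1 / V) * K *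
      ((R / V ^ 2) ^ (s - 1) * Real.exp (-(s * (Y - X)))) =
    V * K * R ^ (s - 1) * E * Real.exp (-(s * Y)) := by
  have h1 : (R / V ^ 2) ^ (s - 1) = R ^ (s - 1) / V ^ (2 * (s - 1)) := by
    rw [Real.div_rpow hR.le (by positivity), ← Real.rpow_natCast V 2, ← Real.rpow_mul hV.le]
    norm_num
  have h2 : V ^ (2 * s) = V ^ (2 * (s - 1)) * V * V := by
    rw [show 2 * s = 2 * (s - 1) + 1 + 1 by ring, Real.rpow_add_one hV.ne', Real.rpow_add_one hV.ne']
  have h3 : Real.exp (-(s * Y)) = Real.exp (-(s * X)) * Real.exp (-(s * (Y - X))) := by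
    rw [← Real.exp_add]; congr 1; ring
  have h4 : 0 < V ^ (2 * (s - 1)) := Real.rpow_pos_of_pos hV _
  rw [h1, h2, h3]
  field_simp

/-- weight in the second step, a function of the coefficients of the next polynomial -/
noncomputable def chi (s α : ℝ) {m : ℕ} (κ : Fin m → ℝ) (p : Fin (m + 1) → ℝ) : ℝ :=
  (∏ j, |(X ^ (m + 1) + lin (m + 1) p).eval (κ j)|) ^ (s - 1) *
    |(X ^ (m + 1) + lin (m + 1) p).eval 0| ^ (s * α - 1) *
    Real.exp (-(s * (-(p (Fin.last m)) - ∑ i, κ i)))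

theorem chi_x (s α : ℝ) {m : ℕ} {κ x : Fin m → ℝ} {b : ℝ} (hb : 0 < b) (hx : ∀ i, 0 < x i) :
    chi s α κ (sh (Co κ) - b • up (Co x)) =
      (b ^ m * Res x κ) ^ (s - 1) * (b * ∏ i, x i) ^ (s * α - 1) * Real.exp (-(s * b)) := by
  have h0 : X ^ (m + 1) + lin (m + 1) (sh (Co κ) - b • up (Co x)) = X * pol κ - C b * pol x := by
    rw [map_sub, map_smul, lin_up_Co, lin_sh, pol_eq κ, Polynomial.smul_eq_C_mul]
    ring
  have h1 : ∀ j, |(X * pol κ - C b * pol x).eval (κ j)| = b * |∏ i, (κ j - x i)| := by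
    intro j
    simp only [Polynomial.eval_sub, Polynomial.eval_mul, Polynomial.eval_X, Polynomial.eval_C]
    rw [pol_eval κ, Finset.prod_eq_zero (mem_univ j) (sub_self (κ j)), mul_zero, zero_sub, abs_neg,
      abs_mul, abs_of_pos hb, pol_eval]
  have h2 : |(X * pol κ - C b * pol x).eval 0| = b * ∏ i, x i := by
    simp only [Polynomial.eval_sub, Polynomial.eval_mul, Polynomial.eval_X, zero_mul,
      Polynomial.eval_C, pol_eval, zero_sub]
    rw [abs_neg, abs_mul, abs_of_pos hb, Finset.abs_prod]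
    congr 1
    exact prod_congr rfl fun i _ => by rw [abs_neg, abs_of_pos (hx i)]
  unfold chi
  rw [h0, h2]
  simp only [h1]
  rw [Finset.prod_mul_distrib, Res_symm, Finset.prod_const, Finset.card_univ, Fintype.card_fin]
  congr 3
  rw [Pi.sub_apply, sh_Co_last, Pi.smul_apply, up_last, smul_eq_mul]
  ring

theorem chi_l (s α : ℝ) {m : ℕ} {κ : Fin m → ℝ} {l : Fin (m + 1) → ℝ} (hl : ∀ i, 0 < l i) :
    chi s α κ (Co l) = Res l κ ^ (s - 1) * (∏ i, l i) ^ (s * α - 1) *
      Real.exp (-(s * (∑ i, l i - ∑ i, κ i))) := by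
  unfold chi
  rw [← pol_eq, Co_last]
  simp only [pol_eval]
  rw [Res_symm, neg_neg]
  congr 3
  rw [Finset.abs_prod]
  exact prod_congr rfl fun i _ => by rw [zero_sub, abs_neg, abs_of_pos (hl i)]

theorem id2 {s α b R E Vx Vk K : ℝ} {m : ℕ} (hb : 0 < b) (hR : 0 < R) (hE : 0 < E) :
    Vx * Vk * R ^ (s - 1) * E ^ (s * α - 1) * Real.exp (-(s * K)) *
      (b ^ (s * (m + α) - 1) * Real.exp (-(s * b))) =
    b ^ m * Vx * (Vk * Real.exp (-(s * K))) *
      ((b ^ m * R) ^ (s - 1) * (b * E) ^ (s * α - 1) * Real.exp (-(s * b))) := by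
  have hbm : 0 < b ^ m := pow_pos hb m
  rw [Real.mul_rpow hbm.le hR.le, Real.mul_rpow hb.le hE.le, ← Real.rpow_natCast b m,
    ← Real.rpow_mul hb.le]
  have h1 : b ^ (s * (m + α) - 1) = b ^ (m : ℝ) * b ^ ((m : ℝ) * (s - 1)) * b ^ (s * α - 1) := by
    rw [← Real.rpow_add hb, ← Real.rpow_add hb]
    congr 1
    ring
  rw [h1]
  ring

/-- weight in the third step -/
noncomputable def theta (s : ℝ) {m : ℕ} (l q : Fin (m + 1) → ℝ) : ℝ :=
  (∏ i, |(lin (m + 1) q).eval (l i)|) ^ (s - 1) * Real.exp (-(s * q (Fin.last m)))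

theorem theta_k (s : ℝ) {m : ℕ} {l : Fin (m + 1) → ℝ} {κ : Fin m → ℝ} {c : ℝ} (hc : 0 < c) :
    theta s l (c • up (Co κ)) = (c ^ (m + 1) * Res l κ) ^ (s - 1) * Real.exp (-(s * c)) := by
  have h1 : ∀ i, |(lin (m + 1) (c • up (Co κ))).eval (l i)| = c * |∏ j, (l i - κ j)| := by
    intro i
    rw [map_smul, lin_up_Co, Polynomial.eval_smul, smul_eq_mul, abs_mul, abs_of_pos hc, pol_eval]
  unfold theta
  simp only [h1]
  rw [Finset.prod_mul_distrib, Res_abs, Finset.prod_const, Finset.card_univ, Fintype.card_fin,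
    Pi.smul_apply, up_last, smul_eq_mul, mul_one]

theorem theta_g (s : ℝ) {m : ℕ} {l g : Fin (m + 1) → ℝ} (hl : StrictMono l) (hg : ∀ i, 0 < g i) :
    theta s l (Mx l g) = ((∏ i, g i) * Van l ^ 2) ^ (s - 1) * Real.exp (-(s * ∑ i, g i)) := by
  have hV := van_pos hl
  unfold theta
  simp only [eval_Mx_node, abs_mul]
  rw [Finset.prod_mul_distrib, prod_Lx, abs_of_pos hV, Mx_last]
  congr 3
  exact prod_congr rfl fun i _ => abs_of_pos (hg i)

theorem id3 {s α c R E Vl Vk L : ℝ} {m : ℕ} (hc : 0 < c) (hR : 0 < R) :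
    Vk * Vl * R ^ (s - 1) * E ^ (s * α - 1) * Real.exp (-(s * L)) *
      (c ^ (s * (m + 1) - 1) * Real.exp (-(s * c))) =
    c ^ m * Vk * (Vl * E ^ (s * α - 1) * Real.exp (-(s * L))) *
      ((c ^ (m + 1) * R) ^ (s - 1) * Real.exp (-(s * c))) := by
  have hcm : 0 < c ^ (m + 1) := pow_pos hc _
  rw [Real.mul_rpow hcm.le hR.le, ← Real.rpow_natCast c m, ← Real.rpow_natCast c (m + 1),
    ← Real.rpow_mul hc.le]
  have h1 : c ^ (s * (m + 1) - 1) = c ^ (m : ℝ) * c ^ (((m + 1 : ℕ) : ℝ) * (s - 1)) := by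
    rw [← Real.rpow_add hc]
    congr 1
    push_cast
    ring
  rw [h1]
  ring

theorem id4 {s α V E L P G : ℝ} (hV : 0 < V) (hP : 0 < P) :
    V * (V * E ^ (s * α - 1) * Real.exp (-(s * L))) * ((P * V ^ 2) ^ (s - 1) * Real.exp (-(s * G))) =
    V ^ (2 * s) * E ^ (s * α - 1) * Real.exp (-(s * L)) * (P ^ (s - 1) * Real.exp (-(s * G))) := by
  have h1 : (P * V ^ 2) ^ (s - 1) = P ^ (s - 1) * V ^ (2 * (s - 1)) := by
    rw [Real.mul_rpow hP.le (by positivity), ← Real.rpow_natCast V 2, ← Real.rpow_mul hV.le]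
    norm_num
  have h2 : V ^ (2 * s) = V ^ (2 * (s - 1)) * V * V := by
    rw [show 2 * s = 2 * (s - 1) + 1 + 1 by ring, Real.rpow_add_one hV.ne', Real.rpow_add_one hV.ne']
  rw [h1, h2]
  ring

end Pool.Agent.Y982.DE
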